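import Pool.Agent.T2h77.Stm2
import Pool.Agent.T2h77.DefsB

/-!
# The density theorem for `SL₂` over number fields, uniformly in the prime: statements

The statements are uniform versions of the statements of `Pool.Agent.T2h77.Stm2`: the constants do not
depend on the prime `𝔭`, and depend polynomially on the size `C₀` of the box.
-/

set_option autoImplicit false

open NumberField NumberField.mixedEmbedding MeasureTheory Matrix IsDedekindDomain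
open scoped MatrixGroups ENNReal

noncomputable section

namespace Pool.Agent.T2h77V

open Pool.Agent.T2h77

/-- integers outside `𝔭` in a box congruent modulo `I` -/
def U_box : Prop :=
  ∀ (K : Type) [Field K] [NumberField K], ∃ C : ℝ, 0 < C ∧ ∀ (𝔭 : Ideal (𝓞 K)), 𝔭 ≠ ⊥ →
    ∀ C₀ : ℝ, 1 ≤ C₀ → ∀ (I : Ideal (𝓞 K)), I ≠ ⊥ → ∀ k : ℕ, ∀ s : Finset K,
      (∀ x ∈ s, ∀ w : InfinitePlace K, w x ≤ C₀) →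
      (∀ x ∈ s, ∀ y ∈ s, x - y ∈ Fr 𝔭 k I) →
      (s.card : ℝ) ≤ C * C₀ ^ (Module.finrank ℚ K) *
        (1 + (Ideal.absNorm 𝔭 : ℝ) ^ k / Ideal.absNorm I)

/-- factorisations in a box -/
def U_fac : Prop :=
  ∀ (K : Type) [Field K] [NumberField K] (ε : ℝ), 0 < ε → ∃ C : ℝ, 0 < C ∧
    ∀ (𝔭 : Ideal (𝓞 K)), 𝔭 ≠ ⊥ → ∀ C₀ : ℝ, 1 ≤ C₀ → ∀ (k : ℕ) (y : K), y ≠ 0 → ∀ s : Finset (K × K),
      (∀ x ∈ s, x.1 * x.2 = y ∧ x.1 ∈ Fr 𝔭 k ⊤ ∧ x.2 ∈ Fr 𝔭 k ⊤ ∧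
        ∀ w : InfinitePlace K, w x.1 ≤ C₀ ∧ w x.2 ≤ C₀) →
      (s.card : ℝ) ≤ C * (C₀ * (Ideal.absNorm 𝔭 : ℝ) ^ k) ^ ε

/-- matrices in `SL₂(𝓞[1/𝔭])` which are scalar modulo `m`, with prescribed trace modulo `𝔫 m` -/
def U_points : Prop :=
  ∀ (K : Type) [Field K] [NumberField K], ∃ A : ℕ, ∀ ε : ℝ, 0 < ε → ∃ C : ℝ, 0 < C ∧
    ∀ (𝔭 : Ideal (𝓞 K)), 𝔭 ≠ ⊥ → ∀ C₀ : ℝ, 1 ≤ C₀ →
    ∀ (𝔫 m : Ideal (𝓞 K)), 𝔫 ≠ ⊥ → m ≠ ⊥ → ∀ (t : K) (k : ℕ), ∀ s : Finset SL(2, K),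
      (∀ δ ∈ s, δ ≠ 1 ∧ δ ≠ -1 ∧ δ ∈ Lk 𝔭 k ∧ (∀ w, mn w (jo K δ) ≤ C₀) ∧
        δ 0 1 ∈ Fr 𝔭 k m ∧ δ 1 0 ∈ Fr 𝔭 k m ∧ δ 0 0 - δ 1 1 ∈ Fr 𝔭 k m ∧
        δ 0 0 + δ 1 1 - t ∈ Fr 𝔭 k (𝔫 * m)) →
      (s.card : ℝ) ≤ C * C₀ ^ A * ((Ideal.absNorm 𝔭 : ℝ) ^ k) ^ ε *
        ((Ideal.absNorm 𝔭 : ℝ) ^ k / Ideal.absNorm m) *
        (1 + (Ideal.absNorm 𝔭 : ℝ) ^ k / (Ideal.absNorm 𝔫 * Ideal.absNorm m))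

/-- the counting theorem -/
def U_count : Prop :=
  ∀ (K : Type) [Field K] [NumberField K], ∃ A : ℕ, ∀ ε : ℝ, 0 < ε → ∃ C : ℝ, 0 < C ∧
    ∀ (𝔭 : Ideal (𝓞 K)), 𝔭.IsPrime → 𝔭 ≠ ⊥ → ∀ C₀ : ℝ, 1 ≤ C₀ →
    ∀ Γ : Subgroup SL(2, K), IsCongrP 𝔭 Γ → ∀ k : ℕ, ∀ s : Finset SL(2, K),
      (∀ δ ∈ s, δ ≠ 1 ∧ δ ≠ -1 ∧ δ ∈ Lk 𝔭 k ∧ ∀ w, mn w (jo K δ) ≤ C₀) →
      ∑ δ ∈ s, (fixP Γ δ : ℝ) ≤ C * C₀ ^ A * ((ic Γ).index * (Ideal.absNorm 𝔭 : ℝ) ^ k) ^ ε *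
        ((ic Γ).index * (Ideal.absNorm 𝔭 : ℝ) ^ k + ((Ideal.absNorm 𝔭 : ℝ) ^ k) ^ 2)

/-- reduction theory, with an explicit dependence on the height -/
def U_red : Prop :=
  ∀ (K : Type) [Field K] [NumberField K], ∃ C : ℝ, 1 ≤ C ∧ ∀ Y : ℝ, 1 ≤ Y → ∀ g : GG K, Wle Y g →
    ∃ γ : SL(2, 𝓞 K), ∀ w, mn w (io K γ * g) ≤ C * Y

/-- the volume of the balls -/
def U_vol : Prop :=
  ∀ (K : Type) [Field K] [NumberField K], ∃ C : ℝ, 0 < C ∧ ∀ R : ℝ, 1 ≤ R →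
    mu K (ball fun _ => R) ≤ ENNReal.ofReal (C * R ^ (2 * Module.finrank ℚ K))

/-- multiples of an ideal: `𝔟` is contained in no proper multiple of bounded size -/
def U_ideal : Prop :=
  ∀ (K : Type) [Field K] [NumberField K], ∃ C : ℝ, 0 < C ∧ ∀ I : Ideal (𝓞 K), I ≠ ⊥ →
    ∃ β : K, β ≠ 0 ∧ (∀ a ∈ I, ∃ b : 𝓞 K, β * (a : K) = b) ∧
      ∀ w : InfinitePlace K, w β ^ (Module.finrank ℚ K) * Ideal.absNorm I ≤ C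

end Pool.Agent.T2h77V
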