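import Pool.Agent.T2h77.Points2
import Pool.Agent.T2h77V.Stm

/-!
# Integers in a box, uniformly in the prime
-/

set_option autoImplicit false

open NumberField NumberField.mixedEmbedding Finset
open scoped MatrixGroups

noncomputable section

namespace Pool.Agent.T2h77V

open Pool.Agent.T2h77 Pool.Agent.T2h77.P2 Pool.Agent.T2h77.Bx Pool.Agent.T2h77.Pt

theorem ubox : U_box := by
  classical
  intro K _ _
  set d : ℕ := Module.finrank ℚ K with hd
  have hd0 : d ≠ 0 := Module.finrank_pos.ne'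
  refine ⟨6 ^ d * 2 ^ (d - 1), by positivity, ?_⟩
  intro 𝔭 h𝔭 C₀ hC₁ I hI k s hs hsI
  have hC0 := abs_nonneg C₀
  have hN := absNorm_pos hI
  have hq : (0 : ℝ) < (Ideal.absNorm 𝔭 : ℝ) ^ k := pow_pos (absNorm_pos h𝔭) k
  set ν : ℝ := (Ideal.absNorm I : ℝ) / (Ideal.absNorm 𝔭 : ℝ) ^ k with hν
  have hν0 : 0 < ν := by positivity
  set η : ℝ := ν ^ ((d : ℝ)⁻¹) with hη
  have hη0 : 0 < η := by positivity
  have hηd : η ^ d = ν := Real.rpow_inv_natCast_pow hν0.le hd0
  have hη2 : 0 < η / 2 := by positivity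
  -- coordinates
  let f : K → InfinitePlace K → ℤ × ℤ := fun x w =>
    (⌊(w.embedding x).re / (η / 2)⌋, if w.IsReal then 0 else ⌊(w.embedding x).im / (η / 2)⌋)
  let J : Finset ℤ := Finset.Icc ⌊-|C₀| / (η / 2)⌋ ⌊|C₀| / (η / 2)⌋
  let t : Finset (InfinitePlace K → ℤ × ℤ) :=
    Fintype.piFinset fun w : InfinitePlace K => J ×ˢ (if w.IsReal then {0} else J)
  have hnorm : ∀ x ∈ s, ∀ w : InfinitePlace K, ‖w.embedding x‖ ≤ |C₀| := by
    intro x hx w
    rw [InfinitePlace.norm_embedding_eq]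
    exact (hs x hx w).trans (le_abs_self _)
  have hmaps : ∀ x ∈ s, f x ∈ t := by
    intro x hx
    refine Fintype.mem_piFinset.2 fun w => Finset.mem_product.2 ⟨?_, ?_⟩
    · exact floor_mem hη2 ((Complex.abs_re_le_norm _).trans (hnorm x hx w))
    · by_cases hw : w.IsReal
      · simp [f, hw]
      · simp only [f, hw, if_false]
        exact floor_mem hη2 ((Complex.abs_im_le_norm _).trans (hnorm x hx w))
  have hinj : Set.InjOn f s := by
    intro x hx y hy hxy
    by_contra hne
    have h0 : x - y ≠ 0 := sub_ne_zero.2 hne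
    have h1 := norm_ge_fr I k h𝔭 (hsI x hx y hy) h0
    have h2 : ∀ w : InfinitePlace K, w (x - y) < η := by
      intro w
      have h3 := congrFun hxy w
      have h4 := (Prod.mk.inj h3).1
      have h5 := (Prod.mk.inj h3).2
      rw [← InfinitePlace.norm_embedding_eq, map_sub]
      refine (Complex.norm_le_abs_re_add_abs_im _).trans_lt ?_
      rw [Complex.sub_re, Complex.sub_im]
      have h6 := floor_near hη2 h4
      by_cases hw : w.IsReal
      · rw [im_eq_zero hw, im_eq_zero hw, sub_zero, abs_zero]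
        linarith
      · simp only [hw, if_false] at h5
        have h7 := floor_near hη2 h5
        linarith
    have h3 : (∏ w : InfinitePlace K, w (x - y) ^ w.mult) < η ^ d := by
      rw [hd, ← InfinitePlace.sum_mult_eq, ← Finset.prod_pow_eq_pow_sum]
      apply Finset.prod_lt_prod_of_nonempty
      · intro w _
        exact pow_pos (InfinitePlace.pos_iff.2 h0) _
      · intro w _
        exact pow_lt_pow_left₀ (h2 w) (apply_nonneg _ _) InfinitePlace.mult_ne_zero
      · exact Finset.univ_nonempty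
    rw [hηd, hν, lt_div_iff₀ hq] at h3
    linarith
  have hcard : (s.card : ℝ) ≤ (2 * (|C₀| / (η / 2)) + 2) ^ d := by
    have h1 : (s.card : ℝ) ≤ (t.card : ℝ) :=
      Nat.cast_le.2 (Finset.card_le_card_of_injOn f hmaps hinj)
    refine h1.trans ?_
    rw [Fintype.card_piFinset]
    push_cast
    rw [hd, ← InfinitePlace.sum_mult_eq, ← Finset.prod_pow_eq_pow_sum]
    refine Finset.prod_le_prod (fun w _ => Nat.cast_nonneg _) fun w _ => ?_
    rw [Finset.card_product, Nat.cast_mul]
    have h2 : (J.card : ℝ) ≤ 2 * (|C₀| / (η / 2)) + 2 := Icc_bound hη2 hC0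
    by_cases hw : w.IsReal
    · rw [if_pos hw, Finset.card_singleton, Nat.cast_one, mul_one, InfinitePlace.IsReal.mult_eq_one hw,
        pow_one]
      exact h2
    · rw [if_neg hw]
      have hw' : w.IsComplex := InfinitePlace.not_isReal_iff_isComplex.1 hw
      rw [hw'.mult_eq_two, sq]
      exact mul_le_mul h2 h2 (Nat.cast_nonneg _) (by positivity)
  refine hcard.trans ?_
  have h8 : 2 * (|C₀| / (η / 2)) + 2 ≤ (4 * |C₀| + 2) * (1 + 1 / η) := by
    have e1 : 2 * (|C₀| / (η / 2)) = 4 * |C₀| * (1 / η) := by field_simp; ring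
    have e2 : 0 < 1 / η := by positivity
    rw [e1]
    nlinarith
  have h8' : (4 * |C₀| + 2) * (1 + 1 / η) ≤ (6 * C₀) * (1 + 1 / η) := by
    have e2 : 0 < 1 / η := by positivity
    rw [abs_of_nonneg (by linarith : (0 : ℝ) ≤ C₀)]
    gcongr
    linarith
  refine (pow_le_pow_left₀ (by positivity) (h8.trans h8') d).trans ?_
  have h9 : (1 + 1 / η) ^ d ≤ 2 ^ (d - 1) * (1 + (Ideal.absNorm 𝔭 : ℝ) ^ k / Ideal.absNorm I) := by
    refine (add_pow_le zero_le_one (by positivity) d).trans (le_of_eq ?_)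
    rw [one_pow, div_pow, one_pow, hηd, hν, one_div_div]
  rw [mul_pow, mul_pow]
  calc 6 ^ d * C₀ ^ d * (1 + 1 / η) ^ d
      ≤ 6 ^ d * C₀ ^ d * (2 ^ (d - 1) * (1 + (Ideal.absNorm 𝔭 : ℝ) ^ k / Ideal.absNorm I)) := by
        gcongr
    _ = _ := by ring

end Pool.Agent.T2h77V
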