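import Pool.Agent.T2h77.Cnt5
import Pool.Agent.T2h77V.Stm

/-!
# The counting theorem, uniformly in the prime
-/

set_option autoImplicit false
set_option linter.unusedSectionVars false
set_option linter.unusedSimpArgs false

open Matrix NumberField
open scoped MatrixGroups

noncomputable section

namespace Pool.Agent.T2h77V

open Pool.Agent.T2h77 Pool.Agent.T2h77.Cnt

theorem ucount (hpt : U_points) : U_count := by
  intro K _ _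
  classical
  obtain ⟨A, hptA⟩ := hpt K
  refine ⟨A, fun ε hε => ?_⟩
  obtain ⟨C, hC, hcore⟩ := core K ε hε
  obtain ⟨C', hC', hpts'⟩ := hptA ε hε
  refine ⟨C * C', by positivity, fun 𝔭 h𝔭 h𝔭0 C₀ hC₀ Γ hΓ k s hs => ?_⟩
  have hpts := hpts' 𝔭 h𝔭0 C₀ hC₀
  obtain ⟨𝔫, h𝔫, hlev, hmin⟩ := exists_level (P := fun 𝔫 => HasLevel 𝔭 Γ 𝔫) hΓ.2
  have hc := coprime_of_min h𝔭 h𝔭0 h𝔫 hlev hmin
  have hfA : Finite (𝓞 K ⧸ 𝔫) := Ideal.finiteQuotientOfFreeOfNeBot 𝔫 h𝔫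
  have hfG : Finite SL(2, 𝓞 K ⧸ 𝔫) := Ind.finSL
  have hker := ker_le_ic hlev
  set H : Subgroup SL(2, 𝓞 K ⧸ 𝔫) := (ic Γ).map (rd 𝔫) with hH
  have hHT : ∀ T : Ideal (𝓞 K ⧸ 𝔫), T ≠ ⊥ → ¬ (rd T).ker ≤ H := fun T hT hle =>
    hmin T hT (not_ker_le h𝔫 hc hlev T hle)
  set S : Finset SL(2, 𝓞 K ⧸ 𝔫) := (Set.toFinite (H : Set SL(2, 𝓞 K ⧸ 𝔫))).toFinset with hS
  have hSm : ∀ h, h ∈ S ↔ h ∈ H := fun h => by simp [hS]
  have hidx : H.index = (ic Γ).index := Subgroup.index_map_eq (ic Γ) (surj K 𝔫 h𝔫) hker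
  set X : ℝ := (Ideal.absNorm 𝔭 : ℝ) ^ k with hX
  have hX1 : 1 ≤ X := by
    apply one_le_pow₀
    have h1 : Ideal.absNorm 𝔭 ≠ 0 := by rwa [ne_eq, Ideal.absNorm_eq_zero_iff]
    exact_mod_cast Nat.one_le_iff_ne_zero.2 h1
  have hX0 : 0 < X := by linarith
  set P : ℝ := C' * C₀ ^ A * X ^ ε with hP
  -- the reduction
  have hex : ∀ δ : SL(2, K), ∃ δ₀ : SL(2, 𝓞 K), δ ∈ Lk 𝔭 k → Rel 𝔭 k 𝔫 δ δ₀ := by
    intro δ
    by_cases h : δ ∈ Lk 𝔭 k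
    · obtain ⟨δ₀, h0⟩ := exists_Rel h𝔫 hc h
      exact ⟨δ₀, fun _ => h0⟩
    · exact ⟨1, fun h' => absurd h' h⟩
  choose r hr using hex
  have hdbl := dbl (rd 𝔫) (ic Γ) hker S hSm s (fun δ => rd 𝔫 (r δ))
    (fun δ x => δ ∈ Lk 𝔭 k ∧ (oK K x.out)⁻¹ * δ * oK K x.out ∈ Γ) (fun δ x hx => by
      rw [← map_inv, ← map_mul, ← map_mul]
      apply Subgroup.mem_map_of_mem
      rw [← Rel_mem hlev (Rel_conj (hr δ hx.1) (x.out)⁻¹ x.out), map_inv]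
      exact hx.2)
  have hfix : ∀ δ ∈ s, Nat.card {x : SL(2, 𝓞 K) ⧸ ic Γ // δ ∈ Lk 𝔭 k ∧
      (oK K x.out)⁻¹ * δ * oK K x.out ∈ Γ} = fixP Γ δ := by
    intro δ hδ
    unfold fixP
    refine Nat.card_congr (Equiv.subtypeEquivRight fun x => ?_)
    have := (hs δ hδ).2.2.1
    tauto
  rw [Finset.sum_congr rfl hfix] at hdbl
  have hres := hcore 𝔫 h𝔫 H hHT S hSm X P (∑ δ ∈ s, (fixP Γ δ : ℝ)) hX1 (by positivity)
    (fun h => ((s.filter fun δ => IsConj (rd 𝔫 (r δ)) h).card : ℝ)) ?_ ?_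
  · rw [hidx] at hres
    refine hres.trans (le_of_eq ?_)
    rw [hP, Real.mul_rpow (Nat.cast_nonneg _) hX0.le]
    ring
  · intro h _
    rcases (s.filter fun δ => IsConj (rd 𝔫 (r δ)) h).eq_empty_or_nonempty with he | ⟨δ₁, hδ₁⟩
    · simp only [he, Finset.card_empty, Nat.cast_zero]
      positivity
    · obtain ⟨hδ₁s, h1⟩ := Finset.mem_filter.1 hδ₁
      set m := (lev h).comap (Ideal.Quotient.mk 𝔫) with hm
      have hnm : 𝔫 ≤ m := le_comap 𝔫 (lev h)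
      have hent : ∀ δ ∈ s, IsConj (rd 𝔫 (r δ)) h → δ 0 1 ∈ Fr 𝔭 k m ∧ δ 1 0 ∈ Fr 𝔭 k m ∧
          δ 0 0 - δ 1 1 ∈ Fr 𝔭 k m := by
        intro δ hδ hcj
        have hL := (hs δ hδ).2.2.1
        obtain ⟨k1, k2, k3⟩ := conj_entries hcj
        have hR := hr δ hL
        refine ⟨?_, ?_, ?_⟩
        · have e : δ 0 1 = (δ 0 1 - (r δ 0 1 : K)) + (r δ 0 1 : K) := by ring
          rw [e]
          exact Fr_add (Fr_mono le_rfl hnm (hR 0 1)) (Fr_coe k1)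
        · have e : δ 1 0 = (δ 1 0 - (r δ 1 0 : K)) + (r δ 1 0 : K) := by ring
          rw [e]
          exact Fr_add (Fr_mono le_rfl hnm (hR 1 0)) (Fr_coe k2)
        · have e : δ 0 0 - δ 1 1 = (δ 0 0 - (r δ 0 0 : K)) - (δ 1 1 - (r δ 1 1 : K)) +
              ((r δ 0 0 - r δ 1 1 : 𝓞 K) : K) := by simp only [cv_add, cv_sub, cv_mul, cv_neg, cv_one, cv_zero, cv_pow]; ring
          rw [e]
          exact Fr_add (Fr_sub (Fr_mono le_rfl hnm (hR 0 0)) (Fr_mono le_rfl hnm (hR 1 1))) (Fr_coe k3)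
      have := hpts 𝔫 m h𝔫 (comap_ne_bot h𝔫 _)
        ((r δ₁ 0 0 + r δ₁ 1 1 : 𝓞 K) : K) k (s.filter fun δ => IsConj (rd 𝔫 (r δ)) h) (fun δ hδ => by
          obtain ⟨hδ1, hδ2⟩ := Finset.mem_filter.1 hδ
          obtain ⟨g1, g2, g3, g4⟩ := hs δ hδ1
          obtain ⟨k1, k2, k3⟩ := hent δ hδ1 hδ2
          refine ⟨g1, g2, g3, g4, k1, k2, k3, ?_⟩
          have e1 := Rel_trace hnm hc g3 (hr δ g3) k1 k2 k3
          have e2 := conj_trace h𝔫 hδ2 h1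
          have e3 := Fr_add e1 (Fr_coe (𝔭 := 𝔭) (k := k) e2)
          have e4 : δ 0 0 + δ 1 1 - ((r δ₁ 0 0 + r δ₁ 1 1 : 𝓞 K) : K) =
              δ 0 0 + δ 1 1 - ((r δ 0 0 + r δ 1 1 : 𝓞 K) : K) +
                ((r δ 0 0 + r δ 1 1 - (r δ₁ 0 0 + r δ₁ 1 1) : 𝓞 K) : K) := by simp only [cv_add, cv_sub, cv_mul, cv_neg, cv_one, cv_zero, cv_pow]; ring
          rw [e4]
          exact e3)
      rw [card_comap] at this
      exact this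
  · exact_mod_cast hdbl


end Pool.Agent.T2h77V
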