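import Pool.Agent.T2h77.Points2
import Pool.Agent.T2h77V.Stm

/-!
# Factorisations in a box, uniformly in the prime
-/

set_option autoImplicit false

open NumberField NumberField.mixedEmbedding Finset
open scoped MatrixGroups

noncomputable section

namespace Pool.Agent.T2h77V

open Pool.Agent.T2h77 Pool.Agent.T2h77.P2 Pool.Agent.T2h77.Bx Pool.Agent.T2h77.Pt

theorem ufac (hdiv : S_div) : U_fac := by
  classical
  intro K _ _ ε hε
  obtain ⟨C, hC, hfac⟩ := facAll hdiv K ε hε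
  refine ⟨C, hC, ?_⟩
  intro 𝔭 h𝔭 C₀ hC₀ k y hy s hs
  -- the norm of `𝔭`
  set q : ℝ := (Ideal.absNorm 𝔭 : ℝ) with hq
  have hN0 : Ideal.absNorm 𝔭 ≠ 0 := fun h => h𝔭 (Ideal.absNorm_eq_zero_iff.1 h)
  have hq1 : 1 ≤ q := by
    rw [hq]
    exact_mod_cast Nat.one_le_iff_ne_zero.2 hN0
  set π : 𝓞 K := ((Ideal.absNorm 𝔭 : ℕ) : 𝓞 K) with hπd
  have hπ : π ∈ 𝔭 := Ideal.absNorm_mem 𝔭
  have hπ0 : π ≠ 0 := by
    rw [hπd]
    exact_mod_cast hN0
  have hPw : ∀ w : InfinitePlace K, w (π : K) ≤ q := by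
    intro w
    have e : (π : K) = ((Ideal.absNorm 𝔭 : ℕ) : K) := by
      rw [hπd]
      exact map_natCast (algebraMap (𝓞 K) K) _
    rw [e, ← InfinitePlace.norm_embedding_eq, map_natCast, Complex.norm_natCast]
  have hπK : (π : K) ≠ 0 := by simpa using hπ0
  have hπk : (π : K) ^ k ≠ 0 := pow_ne_zero k hπK
  have hmem : π ^ k ∈ 𝔭 ^ k := Ideal.pow_mem_pow hπ k
  have hex : ∀ x ∈ s, ∃ X : 𝓞 K × 𝓞 K, (X.1 : K) = (π : K) ^ k * x.1 ∧ (X.2 : K) = (π : K) ^ k * x.2 := by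
    intro x hx
    obtain ⟨-, h1, h2, -⟩ := hs x hx
    obtain ⟨b, -, hb⟩ := h1 _ hmem
    obtain ⟨c, -, hc⟩ := h2 _ hmem
    have e : ((π ^ k : 𝓞 K) : K) = (π : K) ^ k := map_pow (algebraMap (𝓞 K) K) π k
    rw [e] at hb hc
    exact ⟨(b, c), hb.symm, hc.symm⟩
  choose! g hg1 hg2 using hex
  have hinj : Set.InjOn g s := by
    intro x hx z hz h
    have e1 := hg1 x hx
    have e2 := hg1 z hz
    have e3 := hg2 x hx
    have e4 := hg2 z hz
    rw [h] at e1 e3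
    exact Prod.ext (mul_left_cancel₀ hπk (e1.symm.trans e2)) (mul_left_cancel₀ hπk (e3.symm.trans e4))
  rcases s.eq_empty_or_nonempty with rfl | ⟨x₀, hx₀⟩
  · simp only [card_empty, Nat.cast_zero]; positivity
  have hprod : ∀ x ∈ s, (((g x).1 * (g x).2 : 𝓞 K) : K) = (π : K) ^ k * (π : K) ^ k * y := by
    intro x hx
    have e1 : (((g x).1 * (g x).2 : 𝓞 K) : K) = ((g x).1 : K) * ((g x).2 : K) := by push_cast; rfl
    rw [e1, hg1 x hx, hg2 x hx, ← (hs x hx).1]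
    ring
  have hPk1 : 1 ≤ q ^ k := one_le_pow₀ (by linarith)
  have hB : 1 ≤ C₀ * q ^ k := by nlinarith
  have h1 := hfac (C₀ * q ^ k) hB ((g x₀).1 * (g x₀).2) (by
    intro h
    have := hprod x₀ hx₀
    rw [h] at this
    have h2 : (π : K) ^ k * (π : K) ^ k * y ≠ 0 := mul_ne_zero (mul_ne_zero hπk hπk) hy
    apply h2
    rw [← this]
    exact map_zero (algebraMap (𝓞 K) K)) (s.image g) (by
    intro X hX
    obtain ⟨x, hx, rfl⟩ := Finset.mem_image.1 hX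
    obtain ⟨-, -, -, h4⟩ := hs x hx
    have key : ∀ w : InfinitePlace K, ∀ a : K, w a ≤ C₀ → w ((π : K) ^ k * a) ≤ C₀ * q ^ k := by
      intro w a ha
      rw [map_mul, map_pow, mul_comm]
      exact mul_le_mul (by linarith) (pow_le_pow_left₀ (apply_nonneg _ _) (hPw w) k)
        (pow_nonneg (apply_nonneg _ _) _) (by linarith)
    refine ⟨?_, fun w => ⟨?_, ?_⟩⟩
    · apply RingOfIntegers.coe_injective
      exact (hprod x hx).trans (hprod x₀ hx₀).symm
    · rw [hg1 x hx]; exact key w _ (h4 w).1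
    · rw [hg2 x hx]; exact key w _ (h4 w).2)
  rw [Finset.card_image_of_injOn hinj] at h1
  exact h1

end Pool.Agent.T2h77V
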