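import Pool.Agent.T2h77V.Stm

/-!
# Multiples of ideals
-/

set_option autoImplicit false

open NumberField NumberField.mixedEmbedding MeasureTheory Matrix IsDedekindDomain
open scoped MatrixGroups ENNReal NNReal nonZeroDivisors

noncomputable section

namespace Pool.Agent.T2h77V

open Pool.Agent.T2h77

open Classical in
/-- Minkowski's theorem for the inverse of an ideal -/
theorem uideal : U_ideal := by
  intro K _ _
  set d : ℕ := Module.finrank ℚ K with hd
  have hd0 : d ≠ 0 := Module.finrank_pos.ne'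
  set V₀ : ℝ≥0∞ := volume (ZSpan.fundamentalDomain (latticeBasis K)) with hV₀
  have hV₀f : V₀ ≠ ⊤ := (ZSpan.fundamentalDomain_isBounded (latticeBasis K)).measure_lt_top.ne
  set e : ℕ := Module.finrank ℝ (mixedSpace K) with he
  set c : ℝ := V₀.toReal * 2 ^ e + 1 with hc
  have hc0 : 0 < c := by positivity
  refine ⟨c, hc0, fun I hI => ?_⟩
  have hN0 : Ideal.absNorm I ≠ 0 := fun h => hI (Ideal.absNorm_eq_zero_iff.1 h)
  have hN : (0 : ℝ) < Ideal.absNorm I := by exact_mod_cast Nat.pos_of_ne_zero hN0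
  have hIf : (I : FractionalIdeal (𝓞 K)⁰ K) ≠ 0 := FractionalIdeal.coeIdeal_ne_zero.2 hI
  set J : (FractionalIdeal (𝓞 K)⁰ K)ˣ := (Units.mk0 (I : FractionalIdeal (𝓞 K)⁰ K) hIf)⁻¹ with hJ
  have hJv : (J : FractionalIdeal (𝓞 K)⁰ K) = (I : FractionalIdeal (𝓞 K)⁰ K)⁻¹ := by
    rw [hJ, Units.val_inv_eq_inv_val, Units.val_mk0]
  set s : ℝ := (c / Ideal.absNorm I) ^ ((d : ℝ)⁻¹) with hs
  have hs0 : 0 < s := by positivity
  have hsd : s ^ d = c / Ideal.absNorm I := Real.rpow_inv_natCast_pow (by positivity) hd0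
  set f : InfinitePlace K → ℝ≥0 := fun _ => s.toNNReal with hf
  have hvol : volume (convexBodyLT K f) = (convexBodyLTFactor K : ℝ≥0∞) *
      ENNReal.ofReal (c / Ideal.absNorm I) := by
    rw [convexBodyLT_volume]
    congr 1
    have h1 : ∏ w : InfinitePlace K, (f w) ^ w.mult = s.toNNReal ^ d := by
      simp only [hf]
      rw [Finset.prod_pow_eq_pow_sum, InfinitePlace.sum_mult_eq]
    rw [h1, ← hsd, ENNReal.ofReal, Real.toNNReal_pow hs0.le]
  have hbound : minkowskiBound K J < volume (convexBodyLT K f) := by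
    rw [hvol, minkowskiBound, volume_fundamentalDomain_fractionalIdealLatticeBasis]
    have h1 : (FractionalIdeal.absNorm (J : FractionalIdeal (𝓞 K)⁰ K) : ℝ) = (Ideal.absNorm I : ℝ)⁻¹ := by
      rw [hJv, map_inv₀, FractionalIdeal.coeIdeal_absNorm]
      push_cast
      rfl
    have h2 : ENNReal.ofReal ((FractionalIdeal.absNorm (J : FractionalIdeal (𝓞 K)⁰ K) : ℚ) : ℝ) * V₀ *
        2 ^ e = ENNReal.ofReal ((Ideal.absNorm I : ℝ)⁻¹ * (V₀.toReal * 2 ^ e)) := by
      rw [h1, ENNReal.ofReal_mul (by positivity), ENNReal.ofReal_mul ENNReal.toReal_nonneg,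
        ENNReal.ofReal_toReal hV₀f, ENNReal.ofReal_pow (by norm_num), ENNReal.ofReal_ofNat, mul_assoc]
    have h3 : ENNReal.ofReal ((Ideal.absNorm I : ℝ)⁻¹ * (V₀.toReal * 2 ^ e)) <
        ENNReal.ofReal (c / Ideal.absNorm I) := by
      rw [ENNReal.ofReal_lt_ofReal_iff (by positivity), div_eq_inv_mul]
      apply mul_lt_mul_of_pos_left _ (by positivity)
      rw [hc]; linarith
    have h4 : (1 : ℝ≥0∞) ≤ (convexBodyLTFactor K : ℝ≥0∞) := by
      exact_mod_cast one_le_convexBodyLTFactor K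
    calc _ = _ := h2
      _ < _ := h3
      _ = 1 * ENNReal.ofReal (c / Ideal.absNorm I) := (one_mul _).symm
      _ ≤ _ := by gcongr
  obtain ⟨β, hβJ, hβ0, hβ⟩ := exists_ne_zero_mem_ideal_lt K J hbound
  refine ⟨β, hβ0, fun a ha => ?_, fun w => ?_⟩
  · rw [hJv, FractionalIdeal.mem_inv_iff hIf] at hβJ
    have h1 := hβJ (a : K) (FractionalIdeal.mem_coeIdeal_of_mem (𝓞 K)⁰ ha)
    rw [FractionalIdeal.mem_one_iff] at h1
    obtain ⟨b, hb⟩ := h1
    exact ⟨b, hb.symm⟩
  · have h1 : w β < s := by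
      have h0 := hβ w
      rwa [hf, Real.coe_toNNReal s hs0.le] at h0
    have h2 : w β ^ d ≤ s ^ d := pow_le_pow_left₀ (apply_nonneg _ _) h1.le d
    rw [hsd] at h2
    rwa [le_div_iff₀ hN] at h2

end Pool.Agent.T2h77V
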