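import Pool.Agent.T2h77.Points2
import Pool.Agent.T2h77V.Stm

/-!
# Matrices with prescribed trace, uniformly in the prime
-/

set_option autoImplicit false

open NumberField NumberField.mixedEmbedding Finset
open scoped MatrixGroups

noncomputable section

namespace Pool.Agent.T2h77V

open Pool.Agent.T2h77 Pool.Agent.T2h77.P2 Pool.Agent.T2h77.Bx Pool.Agent.T2h77.Pt

theorem upoints (h1 : U_box) (h2 : U_fac) : U_points := by
  classical
  intro K _ _
  set d : ℕ := Module.finrank ℚ K with hd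
  refine ⟨3 * d + 1, fun ε hε => ?_⟩
  set ε₁ : ℝ := min ε 1 with hε₁
  have hε₁0 : 0 < ε₁ := lt_min hε one_pos
  obtain ⟨C₁', hC₁', hbox'⟩ := h1 K
  obtain ⟨C₃', hC₃', hfac'⟩ := h2 K ε₁ hε₁0
  refine ⟨C₁' ^ 2 * 3 ^ (2 * d) * (2 * 3 ^ d) * (3 * C₃' + 4), by positivity, ?_⟩
  intro 𝔭 h𝔭 C₀ hC₀ 𝔫 m h𝔫 hm t k s hs
  set B : ℝ := 2 * |C₀| + 1 with hB
  have hC0 := abs_nonneg C₀
  have hB1 : 1 ≤ B := by linarith
  have hB3 : B ≤ 3 * C₀ := by
    rw [hB, abs_of_nonneg (by linarith : (0 : ℝ) ≤ C₀)]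
    linarith
  set D : ℝ := B ^ d with hD
  have hD1 : 1 ≤ D := one_le_pow₀ hB1
  set C₁ : ℝ := C₁' * B ^ d with hC₁d
  have hC₁ : 0 < C₁ := by positivity
  have hbox := hbox' 𝔭 h𝔭 B hB1
  have hq : (1 : ℝ) ≤ (Ideal.absNorm 𝔭 : ℝ) := by
    have h1 : Ideal.absNorm 𝔭 ≠ 0 := fun h => h𝔭 (Ideal.absNorm_eq_zero_iff.1 h)
    exact_mod_cast Nat.one_le_iff_ne_zero.2 h1
  set X : ℝ := (Ideal.absNorm 𝔭 : ℝ) ^ k with hXdef
  have hX : 1 ≤ X := one_le_pow₀ hq
  have hX0 : (0 : ℝ) < X := by linarith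
  have hNm : (0 : ℝ) < Ideal.absNorm m := absNorm_pos hm
  have hNn : (0 : ℝ) < Ideal.absNorm 𝔫 := absNorm_pos h𝔫
  have hbd : ∀ δ ∈ s, ∀ i j, ∀ w : InfinitePlace K, w (δ i j) ≤ |C₀| := by
    intro δ hδ i j w
    obtain ⟨-, -, -, k2, -⟩ := hs δ hδ
    exact (entry_le2 w δ i j).trans ((k2 w).trans (le_abs_self _))
  have habd : ∀ δ ∈ s, ∀ w : InfinitePlace K, w (δ 0 0 + δ 1 1) ≤ B := by
    intro δ hδ w
    have h3 := w.1.add_le (δ 0 0) (δ 1 1)
    have h4 := hbd δ hδ 0 0 w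
    have h5 := hbd δ hδ 1 1 w
    change w (δ 0 0 + δ 1 1) ≤ w (δ 0 0) + w (δ 1 1) at h3
    linarith
  have hsbd : ∀ δ ∈ s, ∀ w : InfinitePlace K, w (δ 0 0 - δ 1 1) ≤ B := by
    intro δ hδ w
    have h3 := w.1.sub_le_add (δ 0 0) (δ 1 1)
    have h4 := hbd δ hδ 0 0 w
    have h5 := hbd δ hδ 1 1 w
    change w (δ 0 0 - δ 1 1) ≤ w (δ 0 0) + w (δ 1 1) at h3
    linarith
  have hebd : ∀ δ ∈ s, ∀ i j, ∀ w : InfinitePlace K, w (δ i j) ≤ B := by
    intro δ hδ i j w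
    have := hbd δ hδ i j w
    linarith
  -- traces
  have hT : ((s.image fun δ => δ 0 0 + δ 1 1).card : ℝ) ≤
      C₁ * (1 + X / Ideal.absNorm (𝔫 * m)) := by
    apply hbox _ (mul_ne_zero h𝔫 hm)
    · intro x hx
      obtain ⟨δ, hδ, rfl⟩ := Finset.mem_image.1 hx
      exact habd δ hδ
    · intro x hx y hy
      obtain ⟨δ, hδ, rfl⟩ := Finset.mem_image.1 hx
      obtain ⟨η, hη, rfl⟩ := Finset.mem_image.1 hy
      obtain ⟨-, -, -, -, -, -, -, k1⟩ := hs δ hδ
      obtain ⟨-, -, -, -, -, -, -, k2⟩ := hs η hη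
      have := fr_sub k1 k2
      rwa [sub_sub_sub_cancel_right] at this
  set C₃ : ℝ := C₃' * B ^ ε₁ with hC₃d
  have hC₃ : 0 < C₃ := by positivity
  have hfac : ∀ (y : K), y ≠ 0 → ∀ s : Finset (K × K),
      (∀ x ∈ s, x.1 * x.2 = y ∧ x.1 ∈ Fr 𝔭 k ⊤ ∧ x.2 ∈ Fr 𝔭 k ⊤ ∧
        ∀ w : InfinitePlace K, w x.1 ≤ B ∧ w x.2 ≤ B) → (s.card : ℝ) ≤ C₃ * X ^ ε₁ := by
    intro y hy s hs
    refine (hfac' 𝔭 h𝔭 B hB1 k y hy s hs).trans (le_of_eq ?_)
    rw [Real.mul_rpow (by linarith) hX0.le, hC₃d, mul_assoc]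
  set β : ℝ := C₁ * (1 + X / Ideal.absNorm m) with hβ
  have hβ0 : 0 ≤ β := by positivity
  have hXε : 1 ≤ X ^ ε₁ := Real.one_le_rpow hX hε₁0.le
  have two_ne : (2 : K) ≠ 0 := two_ne_zero
  -- fibres
  have hfib : ∀ τ ∈ s.image (fun δ => δ 0 0 + δ 1 1),
      ((s.filter fun δ => δ 0 0 + δ 1 1 = τ).card : ℝ) ≤ β * (C₃ * X ^ ε₁) + 2 * (2 * β) := by
    intro τ _
    set F := s.filter fun δ => δ 0 0 + δ 1 1 = τ with hF
    have hFs : ∀ δ ∈ F, δ ∈ s ∧ δ 0 0 + δ 1 1 = τ := fun δ hδ => Finset.mem_filter.1 hδ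
    rw [← Finset.card_filter_add_card_filter_not (s := F) fun δ => δ 0 1 * δ 1 0 ≠ 0]
    push_cast
    apply add_le_add
    · -- nonzero product
      apply card_le_real _ (fun δ => δ 0 0 - δ 1 1) (by positivity)
      · intro u _
        set G := (F.filter fun δ => δ 0 1 * δ 1 0 ≠ 0).filter fun δ => δ 0 0 - δ 1 1 = u with hG
        have hGm : ∀ δ ∈ G, (δ ∈ s ∧ δ 0 0 + δ 1 1 = τ) ∧ δ 0 1 * δ 1 0 ≠ 0 ∧
            δ 0 0 - δ 1 1 = u := by
          intro δ hδ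
          rw [hG, Finset.mem_filter, Finset.mem_filter] at hδ
          exact ⟨hFs δ hδ.1.1, hδ.1.2, hδ.2⟩
        rcases G.eq_empty_or_nonempty with hGe | ⟨δ₀, hδ₀⟩
        · rw [hGe]; simp only [card_empty, Nat.cast_zero]; positivity
        have hdiag : ∀ δ ∈ G, δ 0 0 = δ₀ 0 0 ∧ δ 1 1 = δ₀ 1 1 := by
          intro δ hδ
          obtain ⟨⟨-, a1⟩, -, a2⟩ := hGm δ hδ
          obtain ⟨⟨-, b1⟩, -, b2⟩ := hGm δ₀ hδ₀
          constructor
          · apply mul_left_cancel₀ two_ne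
            linear_combination a1 + a2 - b1 - b2
          · apply mul_left_cancel₀ two_ne
            linear_combination a1 - a2 - b1 + b2
        have hinj : Set.InjOn (fun δ : SL(2, K) => (δ 0 1, δ 1 0)) G := by
          intro δ hδ η hη h
          have d1 := hdiag δ hδ
          have d2 := hdiag η hη
          exact sl_ext2 (d1.1.trans d2.1.symm) (Prod.mk.inj h).1 (Prod.mk.inj h).2
            (d1.2.trans d2.2.symm)
        rw [← Finset.card_image_of_injOn hinj]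
        apply hfac (δ₀ 0 1 * δ₀ 1 0) (hGm δ₀ hδ₀).2.1
        intro x hx
        obtain ⟨δ, hδ, rfl⟩ := Finset.mem_image.1 hx
        have d1 := hdiag δ hδ
        have e1 := det_eq2 δ
        have e2 := det_eq2 δ₀
        rw [d1.1, d1.2] at e1
        have hδs := (hGm δ hδ).1.1
        obtain ⟨-, -, hL, -⟩ := hs δ hδs
        exact ⟨by linear_combination e2 - e1, hL 0 1, hL 1 0,
          fun w => ⟨hebd δ hδs 0 1 w, hebd δ hδs 1 0 w⟩⟩
      · apply hbox m hm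
        · intro x hx
          obtain ⟨δ, hδ, rfl⟩ := Finset.mem_image.1 hx
          have hδs := (hFs δ (Finset.mem_filter.1 hδ).1).1
          exact hsbd δ hδs
        · intro x hx y hy
          obtain ⟨δ, hδ, rfl⟩ := Finset.mem_image.1 hx
          obtain ⟨η, hη, rfl⟩ := Finset.mem_image.1 hy
          have hδs := (hFs δ (Finset.mem_filter.1 hδ).1).1
          have hηs := (hFs η (Finset.mem_filter.1 hη).1).1
          obtain ⟨-, -, -, -, -, -, k1, -⟩ := hs δ hδs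
          obtain ⟨-, -, -, -, -, -, k2, -⟩ := hs η hηs
          exact fr_sub k1 k2
    · -- zero product
      set F2 := F.filter fun δ => ¬ (δ 0 1 * δ 1 0 ≠ 0) with hF2
      have hF2m : ∀ δ ∈ F2, (δ ∈ s ∧ δ 0 0 + δ 1 1 = τ) ∧ δ 0 1 * δ 1 0 = 0 := by
        intro δ hδ
        rw [hF2, Finset.mem_filter, not_not] at hδ
        exact ⟨hFs δ hδ.1, hδ.2⟩
      apply card_le_real _ (fun δ => δ 0 0) (by positivity)
      · intro a _
        set G := F2.filter fun δ => δ 0 0 = a with hG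
        have hGm : ∀ δ ∈ G, (δ ∈ s ∧ δ 0 0 + δ 1 1 = τ) ∧ δ 0 1 * δ 1 0 = 0 ∧ δ 0 0 = a := by
          intro δ hδ
          rw [hG, Finset.mem_filter] at hδ
          exact ⟨(hF2m δ hδ.1).1, (hF2m δ hδ.1).2, hδ.2⟩
        rw [← Finset.card_filter_add_card_filter_not (s := G) fun δ => δ 0 1 = 0]
        push_cast
        rw [two_mul]
        have hentry : ∀ (i j : Fin 2), (∀ δ ∈ s, δ i j ∈ Fr 𝔭 k m) → ∀ H : Finset SL(2, K),
            (∀ δ ∈ H, δ ∈ s) → Set.InjOn (fun δ : SL(2, K) => δ i j) H → (H.card : ℝ) ≤ β := by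
          intro i j hij H hH hinj
          rw [← Finset.card_image_of_injOn hinj]
          apply hbox m hm
          · intro x hx
            obtain ⟨δ, hδ, rfl⟩ := Finset.mem_image.1 hx
            exact hebd δ (hH δ hδ) i j
          · intro x hx y hy
            obtain ⟨δ, hδ, rfl⟩ := Finset.mem_image.1 hx
            obtain ⟨η, hη, rfl⟩ := Finset.mem_image.1 hy
            exact fr_sub (hij δ (hH δ hδ)) (hij η (hH η hη))
        apply add_le_add
        · apply hentry 1 0 (fun δ hδ => by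
            obtain ⟨-, -, -, -, -, k, -, -⟩ := hs δ hδ
            exact k)
          · intro δ hδ
            exact (hGm δ (Finset.mem_filter.1 hδ).1).1.1
          · intro δ hδ η hη h
            obtain ⟨hδG, hδ0⟩ := Finset.mem_filter.1 (Finset.mem_coe.1 hδ)
            obtain ⟨hηG, hη0⟩ := Finset.mem_filter.1 (Finset.mem_coe.1 hη)
            obtain ⟨⟨-, a1⟩, -, a2⟩ := hGm δ hδG
            obtain ⟨⟨-, b1⟩, -, b2⟩ := hGm η hηG
            exact sl_ext2 (a2.trans b2.symm) (hδ0.trans hη0.symm) h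
              (by linear_combination a1 - b1 - a2 + b2)
        · apply hentry 0 1 (fun δ hδ => by
            obtain ⟨-, -, -, -, k, -, -, -⟩ := hs δ hδ
            exact k)
          · intro δ hδ
            exact (hGm δ (Finset.mem_filter.1 hδ).1).1.1
          · intro δ hδ η hη h
            obtain ⟨hδG, hδ0⟩ := Finset.mem_filter.1 (Finset.mem_coe.1 hδ)
            obtain ⟨hηG, hη0⟩ := Finset.mem_filter.1 (Finset.mem_coe.1 hη)
            obtain ⟨⟨-, a1⟩, a3, a2⟩ := hGm δ hδG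
            obtain ⟨⟨-, b1⟩, b3, b2⟩ := hGm η hηG
            have c1 : δ 1 0 = 0 := (mul_eq_zero.1 a3).resolve_left hδ0
            have c2 : η 1 0 = 0 := (mul_eq_zero.1 b3).resolve_left hη0
            exact sl_ext2 (a2.trans b2.symm) h (c1.trans c2.symm)
              (by linear_combination a1 - b1 - a2 + b2)
      · rcases F2.eq_empty_or_nonempty with hFe | ⟨δ₀, hδ₀⟩
        · rw [hFe]; simp
        have hsub : (F2.image fun δ => δ 0 0) ⊆ {δ₀ 0 0, τ - δ₀ 0 0} := by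
          intro x hx
          obtain ⟨δ, hδ, rfl⟩ := Finset.mem_image.1 hx
          obtain ⟨⟨-, a1⟩, a3⟩ := hF2m δ hδ
          obtain ⟨⟨-, b1⟩, b3⟩ := hF2m δ₀ hδ₀
          have e1 := det_eq2 δ
          have e2 := det_eq2 δ₀
          have e3 : (δ 0 0 - δ₀ 0 0) * (δ 0 0 - (τ - δ₀ 0 0)) = 0 := by
            linear_combination (-1 : K) * e1 + e2 + δ 0 0 * a1 - δ₀ 0 0 * b1 - a3 + b3
          rw [Finset.mem_insert, Finset.mem_singleton]
          rcases mul_eq_zero.1 e3 with h | h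
          · exact Or.inl (sub_eq_zero.1 h)
          · exact Or.inr (sub_eq_zero.1 h)
        exact_mod_cast (Finset.card_le_card hsub).trans Finset.card_le_two
  have hall := card_le_real s (fun δ => δ 0 0 + δ 1 1) (by positivity) hfib hT
  rcases s.eq_empty_or_nonempty with rfl | ⟨δ, hδ⟩
  · simp only [card_empty, Nat.cast_zero]; positivity
  -- the norm of `m` is small
  have hsmall : (Ideal.absNorm m : ℝ) ≤ D * X := by
    have key : ∀ y : K, y ∈ Fr 𝔭 k m → y ≠ 0 → (∀ w : InfinitePlace K, w y ≤ B) →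
        (Ideal.absNorm m : ℝ) ≤ D * X := by
      intro y hy h0 hb
      refine (norm_ge_fr m k h𝔭 hy h0).trans ?_
      refine mul_le_mul_of_nonneg_right ?_ hX0.le
      rw [hD, hd, ← InfinitePlace.sum_mult_eq, ← Finset.prod_pow_eq_pow_sum]
      exact Finset.prod_le_prod (fun w _ => pow_nonneg (apply_nonneg _ _) _) fun w _ =>
        pow_le_pow_left₀ (apply_nonneg _ _) (hb w) _
    obtain ⟨n1, n2, -, -, k1, k2, k3, -⟩ := hs δ hδ
    by_cases c1 : δ 0 1 = 0
    · by_cases c2 : δ 1 0 = 0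
      · by_cases c3 : δ 0 0 - δ 1 1 = 0
        · exfalso
          have e1 := det_eq2 δ
          have c4 : δ 0 0 = δ 1 1 := sub_eq_zero.1 c3
          have e2 : (δ 0 0 - 1) * (δ 0 0 + 1) = 0 := by
            rw [c1, ← c4] at e1
            linear_combination e1
          rcases mul_eq_zero.1 e2 with h | h
          · apply n1
            have h' : δ 0 0 = 1 := sub_eq_zero.1 h
            refine sl_ext2 ?_ ?_ ?_ ?_
            · rw [h']; simp
            · rw [c1]; simp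
            · rw [c2]; simp
            · rw [← c4, h']; simp
          · apply n2
            have h' : δ 0 0 = -1 := eq_neg_of_add_eq_zero_left h
            refine sl_ext2 ?_ ?_ ?_ ?_
            · rw [h']; simp
            · rw [c1]; simp
            · rw [c2]; simp
            · rw [← c4, h']; simp
        · exact key _ k3 c3 (hsbd δ hδ)
      · exact key _ k2 c2 (hebd δ hδ 1 0)
    · exact key _ k1 c1 (hebd δ hδ 0 1)
  have hq : 1 ≤ D * (X / Ideal.absNorm m) := by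
    rw [mul_div_assoc', le_div_iff₀ hNm, one_mul]
    exact hsmall
  have hβ' : β ≤ C₁ * ((D + 1) * (X / Ideal.absNorm m)) := by
    rw [hβ]
    refine mul_le_mul_of_nonneg_left ?_ hC₁.le
    linarith
  have hM : β * (C₃ * X ^ ε₁) + 2 * (2 * β) ≤ C₁ * ((D + 1) * (X / Ideal.absNorm m)) *
      ((C₃ + 4) * X ^ ε₁) := by
    have : β * (C₃ * X ^ ε₁) + 2 * (2 * β) ≤ β * ((C₃ + 4) * X ^ ε₁) := by nlinarith
    exact this.trans (mul_le_mul_of_nonneg_right hβ' (by positivity))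
  rw [map_mul, Nat.cast_mul] at hT hall
  refine hall.trans ((mul_le_mul_of_nonneg_left hM (by positivity)).trans ?_)
  have hXm : X ^ ε₁ ≤ X ^ ε := Real.rpow_le_rpow_of_exponent_le hX (min_le_left _ _)
  have hBε : B ^ ε₁ ≤ B := by
    calc B ^ ε₁ ≤ B ^ (1 : ℝ) := Real.rpow_le_rpow_of_exponent_le hB1 (min_le_right _ _)
      _ = B := Real.rpow_one B
  have hBd : B ^ d ≤ 3 ^ d * C₀ ^ d := by
    rw [← mul_pow]
    exact pow_le_pow_left₀ (by linarith) hB3 d
  have hB0 : (0 : ℝ) < B := by linarith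
  have hC₀0 : (0 : ℝ) < C₀ := by linarith
  have e1 : C₁ * C₁ * (D + 1) * (C₃ + 4) ≤
      C₁' ^ 2 * 3 ^ (2 * d) * (2 * 3 ^ d) * (3 * C₃' + 4) * C₀ ^ (3 * d + 1) := by
    have f1 : C₁ ≤ C₁' * (3 ^ d * C₀ ^ d) := by
      rw [hC₁d]
      gcongr
    have f2 : D + 1 ≤ 2 * (3 ^ d * C₀ ^ d) := by
      have : D ≤ 3 ^ d * C₀ ^ d := hBd
      linarith
    have f3 : C₃ + 4 ≤ (3 * C₃' + 4) * C₀ := by
      have g1 : C₃ ≤ C₃' * (3 * C₀) := by
        rw [hC₃d]
        exact mul_le_mul_of_nonneg_left (hBε.trans hB3) hC₃'.le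
      nlinarith
    calc C₁ * C₁ * (D + 1) * (C₃ + 4)
        ≤ (C₁' * (3 ^ d * C₀ ^ d)) * (C₁' * (3 ^ d * C₀ ^ d)) * (2 * (3 ^ d * C₀ ^ d)) *
            ((3 * C₃' + 4) * C₀) := by gcongr
      _ = _ := by ring
  have hXn : (0 : ℝ) ≤ X / Ideal.absNorm m := by positivity
  have hXnm : (0 : ℝ) ≤ 1 + X / (Ideal.absNorm 𝔫 * Ideal.absNorm m) := by positivity
  calc _ = (C₁ * C₁ * (D + 1) * (C₃ + 4)) * X ^ ε₁ * (X / Ideal.absNorm m) *
        (1 + X / (Ideal.absNorm 𝔫 * Ideal.absNorm m)) := by ring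
    _ ≤ (C₁' ^ 2 * 3 ^ (2 * d) * (2 * 3 ^ d) * (3 * C₃' + 4) * C₀ ^ (3 * d + 1)) * X ^ ε *
        (X / Ideal.absNorm m) * (1 + X / (Ideal.absNorm 𝔫 * Ideal.absNorm m)) := by gcongr
    _ = _ := by ring

end Pool.Agent.T2h77V
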