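import Pool.Agent.T2h77V.Stm
import Pool.Agent.T2h77.Red
import Pool.Agent.T2h77.Points2

/-!
# Reduction theory for `SL₂(𝓞 K)`, with an explicit dependence on the height
-/

set_option autoImplicit false

open NumberField NumberField.mixedEmbedding MeasureTheory Matrix
open scoped MatrixGroups ENNReal

noncomputable section

namespace Pool.Agent.T2h77V

open Pool.Agent.T2h77

variable {K : Type} [Field K] [NumberField K]

/-- multiplying a small vector by an element of the inverse ideal -/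
lemma scale_vec {Cb c : ℝ} (hc : 0 ≤ c) (hb : 0 < Cb)
    (hβ : ∀ I : Ideal (𝓞 K), I ≠ ⊥ →
      ∃ β : K, β ≠ 0 ∧ (∀ a ∈ I, ∃ b : 𝓞 K, β * (a : K) = b) ∧
        ∀ w : InfinitePlace K, w β ^ (Module.finrank ℚ K) * Ideal.absNorm I ≤ Cb)
    (g : GG K) (x : Fin 2 → 𝓞 K) (hx0 : x ≠ 0)
    (hx : ∀ w i, normAtPlace w (Matrix.vecMul (emb K x) g.1 i) ≤ c) :
    ∃ x' : Fin 2 → 𝓞 K, x' ≠ 0 ∧
      (∀ w i, normAtPlace w (Matrix.vecMul (emb K x') g.1 i) ≤ max 1 Cb * c) ∧
      Ideal.span {x' 0, x' 1} ≠ ⊥ ∧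
      (Ideal.absNorm (Ideal.span {x' 0, x' 1}) : ℝ) ≤ Cb := by
  classical
  have hd0 : Module.finrank ℚ K ≠ 0 := Module.finrank_pos.ne'
  obtain ⟨I, hI⟩ : ∃ I, I = Ideal.span {x 0, x 1} := ⟨_, rfl⟩
  have hIbot : I ≠ ⊥ := by
    intro h
    apply hx0
    rw [hI, Ideal.span_eq_bot] at h
    funext i
    fin_cases i
    · exact h _ (by simp)
    · exact h _ (by simp)
  have hN : (1 : ℝ) ≤ Ideal.absNorm I := by
    have : Ideal.absNorm I ≠ 0 := by
      rw [Ne, Ideal.absNorm_eq_zero_iff]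
      exact hIbot
    exact_mod_cast Nat.one_le_iff_ne_zero.2 this
  have hN0 : (0 : ℝ) < Ideal.absNorm I := by linarith
  obtain ⟨β, hβ0, hβI, hβw⟩ := hβ I hIbot
  have hx0I : ∀ i, x i ∈ I := by
    intro i
    rw [hI]
    fin_cases i
    · exact Ideal.subset_span (by simp)
    · exact Ideal.subset_span (by simp)
  choose b hb' using fun i => hβI (x i) (hx0I i)
  have hbe : ∀ i, ((b i : 𝓞 K) : K) = β * (x i : K) := fun i => (hb' i).symm
  have hbne : b ≠ 0 := by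
    intro h
    apply hx0
    funext i
    have h1 := hbe i
    rw [h] at h1
    have h2 : β * (x i : K) = 0 := by
      rw [← h1]
      exact map_zero (algebraMap (𝓞 K) K)
    have h3 := (mul_eq_zero.1 h2).resolve_left hβ0
    exact_mod_cast h3
  obtain ⟨I', hI'⟩ : ∃ I', I' = Ideal.span {b 0, b 1} := ⟨_, rfl⟩
  have hI'bot : I' ≠ ⊥ := by
    intro h
    apply hbne
    rw [hI', Ideal.span_eq_bot] at h
    funext i
    fin_cases i
    · exact h _ (by simp)
    · exact h _ (by simp)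
  have hwd : ∀ w : InfinitePlace K, w β ^ (Module.finrank ℚ K) ≤ Cb / Ideal.absNorm I := by
    intro w
    rw [le_div_iff₀ hN0]
    exact hβw w
  have hwb : ∀ w : InfinitePlace K, w β ≤ max 1 Cb := by
    intro w
    rcases le_or_gt (w β) 1 with h | h
    · exact h.trans (le_max_left _ _)
    · refine le_trans ?_ (le_max_right _ _)
      calc w β ≤ w β ^ (Module.finrank ℚ K) := le_self_pow₀ h.le hd0
        _ ≤ Cb / Ideal.absNorm I := hwd w
        _ ≤ Cb := div_le_self hb.le hN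
  refine ⟨b, hbne, ?_, ?_, ?_⟩
  · intro w i
    have h1 : Matrix.vecMul (emb K b) g.1 i = mixedEmbedding K β * Matrix.vecMul (emb K x) g.1 i := by
      rw [vm, vm, hbe, hbe, map_mul, map_mul]
      ring
    rw [h1, map_mul, normAtPlace_apply]
    exact mul_le_mul (hwb w) (hx w i) (normAtPlace_nonneg w _) (by positivity)
  · rw [← hI']; exact hI'bot
  · rw [← hI']
    have hz : β ∈ Fr I 1 I' := by
      intro a ha
      rw [pow_one, hI, Ideal.mem_span_pair] at ha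
      obtain ⟨u, v, huv⟩ := ha
      refine ⟨u * b 0 + v * b 1, ?_, ?_⟩
      · rw [hI']
        exact add_mem (Ideal.mul_mem_left _ _ (Ideal.subset_span (by simp)))
          (Ideal.mul_mem_left _ _ (Ideal.subset_span (by simp)))
      · have e1 : ((u * b 0 + v * b 1 : 𝓞 K) : K) = (u : K) * (b 0 : K) + (v : K) * (b 1 : K) := by
          push_cast; rfl
        have e2 : (a : K) = (u : K) * (x 0 : K) + (v : K) * (x 1 : K) := by
          rw [← huv]; push_cast; rfl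
        rw [e1, hbe, hbe, e2]
        ring
    have h1 := P2.norm_ge_fr I' 1 hIbot hz hβ0
    rw [pow_one] at h1
    refine h1.trans ?_
    have h2 : (∏ w : InfinitePlace K, w β ^ w.mult) ≤ Cb / Ideal.absNorm I := by
      have h3 : (∏ w : InfinitePlace K, w β ^ w.mult) ^ (Module.finrank ℚ K) ≤
          (Cb / Ideal.absNorm I) ^ (Module.finrank ℚ K) := by
        calc (∏ w : InfinitePlace K, w β ^ w.mult) ^ (Module.finrank ℚ K)
            = ∏ w : InfinitePlace K, (w β ^ (Module.finrank ℚ K)) ^ w.mult := by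
              rw [← Finset.prod_pow]
              refine Finset.prod_congr rfl fun w _ => ?_
              rw [← pow_mul, ← pow_mul, mul_comm]
          _ ≤ ∏ w : InfinitePlace K, (Cb / Ideal.absNorm I) ^ w.mult :=
              Finset.prod_le_prod (fun w _ => by positivity)
                fun w _ => pow_le_pow_left₀ (by positivity) (hwd w) _
          _ = _ := by rw [Finset.prod_pow_eq_pow_sum, InfinitePlace.sum_mult_eq]
      exact le_of_pow_le_pow_left₀ hd0 (by positivity) h3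
    calc _ ≤ Cb / Ideal.absNorm I * Ideal.absNorm I := mul_le_mul_of_nonneg_right h2 hN0.le
      _ = Cb := div_mul_cancel₀ _ hN0.ne'

lemma mn_le2 (w : InfinitePlace K) (h : GG K) (c : ℝ) (hc : ∀ i j, normAtPlace w (h i j) ≤ c) :
    mn w h ≤ 2 * c := by
  have hc0 : 0 ≤ c := (normAtPlace_nonneg w _).trans (hc 0 0)
  have h0 := rn_le w (h 0) c (hc 0)
  have h1 := rn_le w (h 1) c (hc 1)
  have n0 := rn_nonneg (w := w) (h 0)
  have n1 := rn_nonneg (w := w) (h 1)
  unfold mn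
  apply Real.sqrt_le_iff.2
  refine ⟨by positivity, ?_⟩
  have e : (√2 * c) ^ 2 = 2 * c ^ 2 := by
    rw [mul_pow, Real.sq_sqrt (by norm_num)]
  have e0 : rn w (h 0) ^ 2 ≤ (√2 * c) ^ 2 := pow_le_pow_left₀ n0 h0 2
  have e1 : rn w (h 1) ^ 2 ≤ (√2 * c) ^ 2 := pow_le_pow_left₀ n1 h1 2
  rw [e] at e0 e1
  nlinarith

theorem ured (hid : U_ideal) : U_red := by
  intro K _ _
  classical
  obtain ⟨c₁, hc₁, hmin⟩ := exists_small K
  obtain ⟨R, hR, hround⟩ := exists_round K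
  obtain ⟨Cb, hCb, hβ⟩ := hid K
  obtain ⟨c, hcd⟩ : ∃ c, c = max 1 Cb * c₁ := ⟨_, rfl⟩
  have hc : 0 < c := by rw [hcd]; positivity
  obtain ⟨C1, hC1⟩ : ∃ C1, C1 = max 1 (√2 * c) := ⟨_, rfl⟩
  have hC11 : 1 ≤ C1 := hC1 ▸ le_max_left _ _
  obtain ⟨P, hP⟩ : ∃ P, P = ∏ w : InfinitePlace K, C1 ^ w.mult := ⟨_, rfl⟩
  have hP1 : 1 ≤ P := by
    rw [hP]
    exact Finset.prod_induction _ (fun x : ℝ => 1 ≤ x)
      (fun a b ha hb => one_le_mul_of_one_le_of_one_le ha hb) le_rfl (fun w _ => one_le_pow₀ hC11)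
  -- the ideals
  obtain ⟨T, hT⟩ : ∃ T : Finset (Ideal (𝓞 K)), ∀ I, Ideal.absNorm I ≤ ⌊Cb⌋₊ → I ∈ T := by
    have hfin := Ideal.finite_setOfPred_absNorm_le (S := 𝓞 K) ⌊Cb⌋₊
    exact ⟨hfin.toFinset, fun I hI => by simpa using hI⟩
  have hδ : ∀ I : Ideal (𝓞 K), ∃ δ : 𝓞 K, I ≠ ⊥ → δ ∈ I ∧ δ ≠ 0 := by
    intro I
    by_cases hI : I = ⊥
    · exact ⟨0, fun h => (h hI).elim⟩
    · obtain ⟨δ, h1, h2⟩ := Submodule.exists_mem_ne_zero_of_ne_bot hI
      exact ⟨δ, fun _ => ⟨h1, h2⟩⟩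
  choose δ hδ using hδ
  have hF : ∀ I : Ideal (𝓞 K), ∃ F : Finset (Matrix (Fin 2) (Fin 2) (𝓞 K)), I ≠ ⊥ →
      ∀ M : Matrix (Fin 2) (Fin 2) (𝓞 K), M.det = δ I →
      ∃ N ∈ F, N.det = δ I ∧ ∃ γ : SL(2, 𝓞 K), M = N * (γ : Matrix (Fin 2) (Fin 2) (𝓞 K)) := by
    intro I
    by_cases hI : I = ⊥
    · exact ⟨∅, fun h => (h hI).elim⟩
    · obtain ⟨F, hF⟩ := reps (δ I) (hδ I hI).2
      exact ⟨F, fun _ => hF⟩
  choose F hF using hF
  obtain ⟨Δ, hΔ0, hΔ⟩ := exists_bd2 T (fun _ => (Finset.univ : Finset (InfinitePlace K)))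
    (fun I w => w ((δ I : 𝓞 K) : K))
  obtain ⟨κ, hκ0, hκ⟩ := exists_bd2 T (fun _ => (Finset.univ : Finset (InfinitePlace K)))
    (fun I w => (w ((δ I : 𝓞 K) : K))⁻¹)
  obtain ⟨A, hA0, hA⟩ := exists_bd2 T
    (fun I => (F I) ×ˢ (Finset.univ : Finset (InfinitePlace K × Fin 2 × Fin 2)))
    (fun I p => p.2.1 ((p.1.adjugate p.2.2.1 p.2.2.2 : 𝓞 K) : K))
  refine ⟨max 1 (4 * κ * A * (c + √2 * R * c + Δ * P)), le_max_left _ _, fun Y hY1 g hg => ?_⟩
  have hY : 0 < Y := by linarith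
  obtain ⟨c', hc'⟩ : ∃ c', c' = min 1 (1 / (Y * P)) := ⟨_, rfl⟩
  have hc'0 : 0 < c' := by rw [hc']; positivity
  have hc'e : c' = 1 / (Y * P) := by
    rw [hc']
    apply min_eq_right
    rw [div_le_one (by positivity)]
    exact one_le_mul_of_one_le_of_one_le hY1 hP1
  obtain ⟨B, hB⟩ : ∃ B, B = max c (√(2 * R ^ 2 * c ^ 2 + Δ ^ 2 / c' ^ 2)) := ⟨_, rfl⟩
  have hB0 : 0 < B := hB ▸ lt_max_of_lt_left hc
  have hBY : B ≤ (c + √2 * R * c + Δ * P) * Y := by
    have h1 : c ≤ (c + √2 * R * c + Δ * P) * Y := by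
      have h2 : 0 ≤ √2 * R * c + Δ * P := by positivity
      nlinarith
    rw [hB]
    refine max_le h1 ?_
    apply Real.sqrt_le_iff.2
    refine ⟨by positivity, ?_⟩
    have e1 : Δ ^ 2 / c' ^ 2 = (Δ * P * Y) ^ 2 := by
      rw [hc'e]
      field_simp
    have e2 : 2 * R ^ 2 * c ^ 2 ≤ (√2 * R * c * Y) ^ 2 := by
      have e3 : (√2 * R * c * Y) ^ 2 = 2 * R ^ 2 * c ^ 2 * Y ^ 2 := by
        rw [mul_pow, mul_pow, mul_pow, Real.sq_sqrt (by norm_num)]
      rw [e3]
      have e4 : 1 ≤ Y ^ 2 := one_le_pow₀ hY1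
      have e5 : 0 ≤ 2 * R ^ 2 * c ^ 2 := by positivity
      nlinarith
    have e6 : (√2 * R * c * Y) ^ 2 + (Δ * P * Y) ^ 2 ≤ (√2 * R * c * Y + Δ * P * Y) ^ 2 := by
      have e7 : 0 ≤ √2 * R * c * Y := by positivity
      have e8 : 0 ≤ Δ * P * Y := by positivity
      nlinarith [mul_nonneg e7 e8]
    have e9 : (√2 * R * c * Y + Δ * P * Y) ^ 2 ≤ ((c + √2 * R * c + Δ * P) * Y) ^ 2 := by
      apply pow_le_pow_left₀ (by positivity)
      nlinarith
    linarith
  obtain ⟨x₀, hx₀0, hx₀⟩ := hmin g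
  obtain ⟨x, hx0, hx, hspan, hnorm⟩ := scale_vec hc₁.le hCb hβ g x₀ hx₀0 hx₀
  rw [← hcd] at hx
  -- upper and lower bounds
  have hup : ∀ w, rn w (Matrix.vecMul (emb K x) g.1) ≤ C1 := fun w =>
    (rn_le w _ c (hx w)).trans (hC1 ▸ le_max_right _ _)
  have hnn : nn x g ≤ P := by
    rw [hP, nn]
    exact Finset.prod_le_prod (fun w _ => pow_nonneg (rn_nonneg _ _) _)
      fun w _ => pow_le_pow_left₀ (rn_nonneg _ _) (hup w) _
  obtain ⟨I, hI⟩ : ∃ I, I = Ideal.span {x 0, x 1} := ⟨_, rfl⟩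
  have hIbot : I ≠ ⊥ := by
    intro h
    apply hx0
    rw [hI, Ideal.span_eq_bot] at h
    funext i
    fin_cases i
    · exact h _ (by simp)
    · exact h _ (by simp)
  have hna1 : 1 ≤ na x := by
    rw [na, ← hI]
    have : Ideal.absNorm I ≠ 0 := by
      rw [Ne, Ideal.absNorm_eq_zero_iff]
      exact hIbot
    exact_mod_cast Nat.one_le_iff_ne_zero.2 this
  have hgx := hg x hx0
  have hIT : I ∈ T := by
    apply hT
    apply Nat.le_floor
    rw [hI]
    exact hnorm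
  have hlow : ∀ w, c' ≤ rn w (Matrix.vecMul (emb K x) g.1) := by
    intro w
    obtain ⟨s, hs⟩ : ∃ s, s = rn w (Matrix.vecMul (emb K x) g.1) := ⟨_, rfl⟩
    rw [← hs]
    have hs0 : 0 ≤ s := hs ▸ rn_nonneg _ _
    rcases le_or_gt 1 s with h1 | h1
    · exact (hc' ▸ min_le_left _ _ : c' ≤ 1).trans h1
    · refine (hc' ▸ min_le_right _ _ : c' ≤ 1 / (Y * P)).trans ?_
      have h2 : nn x g ≤ s * P := by
        rw [nn, ← Finset.mul_prod_erase _ _ (Finset.mem_univ w)]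
        have h3 : ∏ w' ∈ Finset.univ.erase w,
            rn w' (Matrix.vecMul (emb K x) g.1) ^ w'.mult ≤ P := by
          have h4 : ∏ w' ∈ Finset.univ.erase w,
            rn w' (Matrix.vecMul (emb K x) g.1) ^ w'.mult ≤
              ∏ w' ∈ Finset.univ.erase w, C1 ^ w'.mult :=
            Finset.prod_le_prod (fun w _ => pow_nonneg (rn_nonneg _ _) _)
              fun w _ => pow_le_pow_left₀ (rn_nonneg _ _) (hup w) _
          refine h4.trans ?_
          rw [hP, ← Finset.mul_prod_erase _ _ (Finset.mem_univ w)]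
          refine le_mul_of_one_le_left (Finset.prod_nonneg fun w _ => by positivity)
            (one_le_pow₀ hC11)
        have h5 : s ^ w.mult ≤ s := by
          refine pow_le_of_le_one hs0 h1.le ?_
          exact InfinitePlace.mult_ne_zero
        rw [← hs]
        exact mul_le_mul h5 h3 (Finset.prod_nonneg fun w _ => pow_nonneg (rn_nonneg _ _) _) hs0
      rw [div_le_iff₀ (by positivity)]
      have h6 := hna1.trans hgx
      have h7 := mul_le_mul_of_nonneg_left h2 hY.le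
      calc (1 : ℝ) ≤ Y * (s * P) := h6.trans h7
        _ = s * (Y * P) := by ring
  -- the second vector
  obtain ⟨hδI, hδ0⟩ := hδ I hIbot
  rw [hI, Ideal.mem_span_pair, ← hI] at hδI
  obtain ⟨a, b, hab⟩ := hδI
  have hdt : dt x ![-b, a] = δ I := by
    rw [dt, ← hab]
    simp
    ring
  obtain ⟨y, hy1, hy2⟩ := adjust R c c' Δ hround hc'0 x ![-b, a] g hx hlow
    (fun w => by rw [hdt]; exact hΔ I hIT w (Finset.mem_univ w))
  rw [hdt] at hy1
  obtain ⟨M, hM⟩ : ∃ M : Matrix (Fin 2) (Fin 2) (𝓞 K), M = !![x 0, x 1; y 0, y 1] := ⟨_, rfl⟩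
  have hMdet : M.det = δ I := by
    rw [hM, Matrix.det_fin_two_of, ← hy1, dt]
  obtain ⟨N, hNF, hNdet, γ, hγ⟩ := hF I hIbot M hMdet
  refine ⟨γ, fun w => ?_⟩
  have hfin : ∀ i j, normAtPlace w ((io K γ * g : GG K) i j) ≤ κ * (2 * A * B) := ?_
  · have hmn := mn_le2 w (io K γ * g) _ hfin
    refine hmn.trans ?_
    calc 2 * (κ * (2 * A * B)) = 4 * κ * A * B := by ring
      _ ≤ 4 * κ * A * ((c + √2 * R * c + Δ * P) * Y) := by gcongr
      _ = (4 * κ * A * (c + √2 * R * c + Δ * P)) * Y := by ring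
      _ ≤ _ := by
        apply mul_le_mul_of_nonneg_right (le_max_right _ _) hY.le
  intro i j
  -- the matrices over the mixed space
  obtain ⟨φ, hφ⟩ : ∃ φ : 𝓞 K →+* mixedSpace K, φ = (mixedEmbedding K).comp (algebraMap (𝓞 K) K) :=
    ⟨_, rfl⟩
  have hφw : ∀ a : 𝓞 K, normAtPlace w (φ a) = w (a : K) := by
    intro a
    rw [hφ]
    exact normAtPlace_apply w _
  have hio : ((io K γ * g : GG K) : Matrix (Fin 2) (Fin 2) (mixedSpace K)) =
      (γ : Matrix (Fin 2) (Fin 2) (𝓞 K)).map φ * g.1 := by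
    rw [hφ, Matrix.SpecialLinearGroup.coe_mul]
    rfl
  have hMg : ∀ k l, normAtPlace w ((M.map φ * g.1) k l) ≤ B := by
    intro k l
    have hrow : ∀ z : Fin 2 → 𝓞 K, ∀ l, φ (z 0) * g 0 l + φ (z 1) * g 1 l =
        Matrix.vecMul (emb K z) g.1 l := by
      intro z l
      rw [vm, hφ]
      rfl
    rw [Matrix.mul_apply, Fin.sum_univ_two, Matrix.map_apply, Matrix.map_apply]
    fin_cases k
    · have h1 := hrow x l
      simp only [hM, Fin.zero_eta, Matrix.of_apply, Matrix.cons_val', Matrix.cons_val_zero,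
        Matrix.cons_val_one, Matrix.cons_val_fin_one]
      rw [h1]
      exact (hx w l).trans (hB ▸ le_max_left _ _)
    · have h1 := hrow y l
      simp only [hM, Fin.mk_one, Matrix.of_apply, Matrix.cons_val', Matrix.cons_val_zero,
        Matrix.cons_val_one, Matrix.cons_val_fin_one]
      rw [h1]
      exact (hy2 w l).trans (hB ▸ le_max_right _ _)
  have hkey : φ (δ I) • ((io K γ * g : GG K) : Matrix (Fin 2) (Fin 2) (mixedSpace K)) =
      N.adjugate.map φ * (M.map φ * g.1) := by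
    rw [hio, hγ, Matrix.map_mul, ← mul_assoc, ← mul_assoc, ← Matrix.map_mul, Matrix.adjugate_mul,
      hNdet, Matrix.map_smul', Matrix.map_one, Matrix.smul_mul, one_mul, Matrix.smul_mul]
    · exact map_zero φ
    · exact map_one φ
    · exact map_mul φ
  have hij := congrFun (congrFun hkey i) j
  rw [Matrix.smul_apply, smul_eq_mul, Matrix.mul_apply, Fin.sum_univ_two] at hij
  have hadj : ∀ k, normAtPlace w (N.adjugate.map φ i k) ≤ A := by
    intro k
    rw [Matrix.map_apply, hφw]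
    exact hA I hIT (N, w, i, k) (by simp [hNF])
  have hnorm' : w ((δ I : 𝓞 K) : K) * normAtPlace w ((io K γ * g : GG K) i j) ≤ 2 * A * B := by
    rw [← hφw, ← map_mul, hij]
    refine (normAtPlace_add_le w _ _).trans ?_
    rw [map_mul, map_mul]
    have e0 := mul_le_mul (hadj 0) (hMg 0 j) (normAtPlace_nonneg w _) hA0.le
    have e1 := mul_le_mul (hadj 1) (hMg 1 j) (normAtPlace_nonneg w _) hA0.le
    linarith
  have hwpos : 0 < w ((δ I : 𝓞 K) : K) := by
    rw [InfinitePlace.pos_iff]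
    exact_mod_cast hδ0
  have h9 : (w ((δ I : 𝓞 K) : K))⁻¹ ≤ κ := hκ I hIT w (Finset.mem_univ w)
  calc normAtPlace w ((io K γ * g : GG K) i j)
      = (w ((δ I : 𝓞 K) : K))⁻¹ * (w ((δ I : 𝓞 K) : K) *
        normAtPlace w ((io K γ * g : GG K) i j)) := by
        rw [← mul_assoc, inv_mul_cancel₀ hwpos.ne', one_mul]
    _ ≤ κ * (2 * A * B) := by
        apply mul_le_mul h9 hnorm' (mul_nonneg hwpos.le (normAtPlace_nonneg w _)) hκ0.le

end Pool.Agent.T2h77V
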