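import Pool.Agent.T2h77V.Stm
import Pool.Agent.T2h77.Vol

/-!
# The volume of the balls in all places at once: `U_vol`
-/

set_option autoImplicit false

open NumberField NumberField.mixedEmbedding MeasureTheory Matrix
open NumberField.InfinitePlace
open scoped MatrixGroups ENNReal

noncomputable section

namespace Pool.Agent.T2h77V

open Pool.Agent.T2h77

namespace VOLPkg

open Pool.Agent.T2h77.VolPkg

section sets

variable {K : Type} [Field K] [NumberField K] {v : InfinitePlace K} {𝕜 : Type} [RCLike 𝕜] (C : Comp K v 𝕜)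

/-- the other places -/
def O' (v : InfinitePlace K) (q : InfinitePlace K → ℝ) : Set (GG K) := {h | ∀ w, w ≠ v → mn w h ≤ q w}

lemma isClosed_O' (q : InfinitePlace K → ℝ) : IsClosed (O' v q) := by
  have : O' v q = ⋂ w, ⋂ _ : w ≠ v, {h : GG K | mn w h ≤ q w} := by
    ext h
    simp [O']
  rw [this]
  exact isClosed_iInter fun w => isClosed_iInter fun _ => isClosed_le (cont_mn w) continuous_const

/-- the basic set -/
def E' (v : InfinitePlace K) (q : InfinitePlace K → ℝ) (a b r : ℝ) : Set (GG K) :=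
  {h | a ≤ rn v (h 0)} ∩ {h | rn v (h 0) ≤ b} ∩ {h | rn v (h 1) ≤ r} ∩ O' v q

lemma isClosed_E' (q : InfinitePlace K → ℝ) (a b r : ℝ) : IsClosed (E' v q a b r) :=
  (((isClosed_le continuous_const (cont_rn v 0)).inter (isClosed_le (cont_rn v 0) continuous_const)).inter
    (isClosed_le (cont_rn v 1) continuous_const)).inter (isClosed_O' q)

lemma meas_E' (q : InfinitePlace K → ℝ) (a b r : ℝ) : MeasurableSet (E' v q a b r) :=
  (isClosed_E' q a b r).measurableSet

omit [NumberField K] in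
lemma mem_E' {q : InfinitePlace K → ℝ} {a b r : ℝ} {h : GG K} : h ∈ E' v q a b r ↔
    a ≤ rn v (h 0) ∧ rn v (h 0) ≤ b ∧ rn v (h 1) ≤ r ∧ h ∈ O' v q := by
  simp [E', and_assoc]

include C in
lemma mem_O'_Phi (q : InfinitePlace K → ℝ) (k : SL(2, 𝕜)) (h : GG K) : Phi C k * h ∈ O' v q ↔ h ∈ O' v q := by
  unfold O'
  constructor
  · intro h1 w hw
    rw [← mn_Phi C k h w hw]
    exact h1 w hw
  · intro h1 w hw
    rw [mn_Phi C k h w hw]
    exact h1 w hw

open Classical in
lemma E'_subset_ball (q : InfinitePlace K → ℝ) :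
    E' v q (1 / 2) 1 3 ⊆ ball (Function.update q v 4) := by
  intro h hh
  rw [mem_E'] at hh
  obtain ⟨h1, h2, h3, h4⟩ := hh
  intro w
  by_cases hw : w = v
  · subst hw
    rw [Function.update_self]
    unfold mn
    apply Real.sqrt_le_iff.2
    refine ⟨by norm_num, ?_⟩
    have := rn_nonneg w (h 0)
    have := rn_nonneg w (h 1)
    nlinarith
  · rw [Function.update_of_ne hw]
    exact h4 w hw

include C in
lemma upperE' (q : InfinitePlace K → ℝ) (r : ℝ) (hr : 0 ≤ r) :
    mu K (E' v q (1 / 2) 1 r) ≤ ENNReal.ofReal ((2 * r + 5) ^ v.mult) * mu K (E' v q (1 / 2) 1 3) := by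
  set lam : Measure 𝕜 := Measure.addHaar with hlam
  set β := lam (Metric.ball 0 1) with hβ
  have hβ0 : β ≠ 0 := (Metric.measure_ball_pos lam 0 one_pos).ne'
  have hβt : β ≠ ∞ := measure_ball_lt_top.ne
  set B : Set 𝕜 := Metric.closedBall 0 (2 * r + 5) with hB
  have hlB : lam B = ENNReal.ofReal ((2 * r + 5) ^ v.mult) * β := by
    rw [hB, Measure.addHaar_closedBall lam 0 (by linarith), C.rank]
  have hf := fub C lam B measurableSet_closedBall (E' v q (1 / 2) 1 3) (meas_E' q _ _ _)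
  have hkey : ∀ h ∈ E' v q (1 / 2) 1 r, β ≤ lam (B ∩ {s | T C (-s) * h ∈ E' v q (1 / 2) 1 3}) := by
    intro h hh
    rw [mem_E', rn_row C, rn_row C] at hh
    obtain ⟨h1, h2, h3, h4⟩ := hh
    obtain ⟨s0, hs0⟩ := gram C h
    set n := ‖row C h 0‖ with hn
    have hnpos : 0 < n := by linarith
    have ha : ‖row C h 1 - s0 • row C h 0‖ ≤ 2 := by
      by_contra hcon
      push Not at hcon
      nlinarith
    have hs0n : ‖s0‖ ≤ 2 * r + 4 := by
      have e1 : ‖s0‖ * n ≤ r + 2 := by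
        calc ‖s0‖ * n = ‖s0 • row C h 0‖ := by rw [_root_.norm_smul]
          _ = ‖row C h 1 - (row C h 1 - s0 • row C h 0)‖ := by congr 1; abel
          _ ≤ ‖row C h 1‖ + ‖row C h 1 - s0 • row C h 0‖ := norm_sub_le _ _
          _ ≤ r + 2 := by linarith
      by_contra hcon
      push Not at hcon
      nlinarith
    have hsub : Metric.closedBall s0 1 ⊆ B ∩ {s | T C (-s) * h ∈ E' v q (1 / 2) 1 3} := by
      intro s hs
      rw [Metric.mem_closedBall, dist_eq_norm] at hs
      refine ⟨?_, ?_⟩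
      · rw [hB, mem_closedBall_zero_iff]
        calc ‖s‖ = ‖s0 + (s - s0)‖ := by congr 1; abel
          _ ≤ ‖s0‖ + ‖s - s0‖ := norm_add_le _ _
          _ ≤ 2 * r + 5 := by linarith
      · change T C (-s) * h ∈ E' v q (1 / 2) 1 3
        rw [mem_E', rn_row C, rn_row C, row0_T, row1_T]
        refine ⟨h1, h2, ?_, (mem_O'_Phi C q _ h).2 h4⟩
        calc ‖row C h 1 + (-s) • row C h 0‖
            = ‖(row C h 1 - s0 • row C h 0) - (s - s0) • row C h 0‖ := by
              congr 1
              rw [sub_smul, neg_smul]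
              abel
          _ ≤ ‖row C h 1 - s0 • row C h 0‖ + ‖(s - s0) • row C h 0‖ := norm_sub_le _ _
          _ ≤ 2 + 1 * 1 := by
              rw [_root_.norm_smul]
              have := mul_le_mul hs h2 hnpos.le zero_le_one
              linarith
          _ = 3 := by norm_num
    calc β = lam (Metric.closedBall s0 1) := by
          rw [Measure.addHaar_closedBall lam s0 zero_le_one]
          simp [hβ]
      _ ≤ _ := measure_mono hsub
  have h5 : β * mu K (E' v q (1 / 2) 1 r) ≤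
      β * (ENNReal.ofReal ((2 * r + 5) ^ v.mult) * mu K (E' v q (1 / 2) 1 3)) := by
    calc β * mu K (E' v q (1 / 2) 1 r) = ∫⁻ _ in E' v q (1 / 2) 1 r, β ∂(mu K) := by
          rw [setLIntegral_const]
      _ ≤ ∫⁻ h in E' v q (1 / 2) 1 r, lam (B ∩ {s | T C (-s) * h ∈ E' v q (1 / 2) 1 3}) ∂(mu K) :=
          setLIntegral_mono' (meas_E' q _ _ _) hkey
      _ ≤ ∫⁻ h, lam (B ∩ {s | T C (-s) * h ∈ E' v q (1 / 2) 1 3}) ∂(mu K) := setLIntegral_le_lintegral _ _
      _ = lam B * mu K (E' v q (1 / 2) 1 3) := hf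
      _ = β * (ENNReal.ofReal ((2 * r + 5) ^ v.mult) * mu K (E' v q (1 / 2) 1 3)) := by
          rw [hlB]
          ring
  exact (ENNReal.mul_le_mul_iff_right hβ0 hβt).1 h5

include C in
/-- scaling -/
lemma scaleE' (q : InfinitePlace K → ℝ) (a b r t : ℝ) (ht : 0 < t) :
    mu K (E' v q (a * t) (b * t) r) = mu K (E' v q a b (r * t)) := by
  have ht' : ((t : ℝ) : 𝕜) ≠ 0 := by exact_mod_cast ht.ne'
  have ht'' : ((t⁻¹ : ℝ) : 𝕜) ≠ 0 := by exact_mod_cast (inv_pos.2 ht).ne'
  have hpre : (fun h => Phi C (dg ((t⁻¹ : ℝ) : 𝕜) ht'') * h) ⁻¹' (E' v q a b (r * t)) =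
      E' v q (a * t) (b * t) r := by
    ext h
    change Phi C (dg ((t⁻¹ : ℝ) : 𝕜) ht'') * h ∈ E' v q a b (r * t) ↔ _
    rw [mem_E', mem_E', rn_row C, rn_row C, rn_row C, rn_row C, row0_dg, row1_dg, _root_.norm_smul,
      _root_.norm_smul, norm_inv, RCLike.norm_ofReal, abs_of_pos (inv_pos.2 ht), inv_inv, mem_O'_Phi]
    have e1 : a ≤ t⁻¹ * ‖row C h 0‖ ↔ a * t ≤ ‖row C h 0‖ := by
      rw [inv_mul_eq_div, le_div_iff₀ ht]
    have e2 : t⁻¹ * ‖row C h 0‖ ≤ b ↔ ‖row C h 0‖ ≤ b * t := by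
      rw [inv_mul_eq_div, div_le_iff₀ ht]
    have e3 : t * ‖row C h 1‖ ≤ r * t ↔ ‖row C h 1‖ ≤ r := by
      rw [mul_comm r t, mul_le_mul_iff_right₀ ht]
    rw [e1, e2, e3]
  rw [← hpre, measure_preimage_mul]

/-- the dyadic block -/
def blk' (v : InfinitePlace K) (ρ : ℝ) (q : InfinitePlace K → ℝ) (k : ℕ) : Set (GG K) :=
  E' v q (1 / 2 * (ρ * (1 / 2) ^ k)) (1 * (ρ * (1 / 2) ^ k)) ρ

include C in
lemma blk'_le (ρ : ℝ) (q : InfinitePlace K → ℝ) (hρ : 0 < ρ) (k : ℕ) :
    mu K (blk' v ρ q k) ≤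
      ENNReal.ofReal ((7 * (ρ * (ρ * (1 / 2) ^ k))) ^ v.mult) * mu K (E' v q (1 / 2) 1 3) := by
  set t : ℝ := ρ * (1 / 2) ^ k with ht
  have htpos : 0 < t := by positivity
  by_cases hne : (blk' v ρ q k).Nonempty
  · obtain ⟨h, hh⟩ := hne
    rw [blk', mem_E'] at hh
    obtain ⟨h1, h2, h3, h4⟩ := hh
    have h5 := one_le_mul C h
    have h6 : 1 ≤ ρ * t := by
      have h7 : rn v (h 0) * rn v (h 1) ≤ t * ρ := by
        refine mul_le_mul (by rw [one_mul] at h2; exact h2) h3 (rn_nonneg _ _) htpos.le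
      linarith
    rw [blk', scaleE' C q _ _ _ t htpos]
    refine (upperE' C q (ρ * t) (by positivity)).trans ?_
    gcongr
    linarith
  · rw [Set.not_nonempty_iff_eq_empty] at hne
    rw [hne, measure_empty]
    exact zero_le

open Classical in
include C in
lemma exists_blk' (ρ : ℝ) (q : InfinitePlace K → ℝ) (hρ : 0 < ρ) (h : GG K)
    (hh : h ∈ ball (Function.update q v ρ)) :
    ∃ k : ℕ, h ∈ blk' v ρ q k := by
  have hv : mn v h ≤ ρ := by
    have := hh v
    simpa using this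
  have h0 : rn v (h 0) ≤ ρ := (rn_le_mn v h 0).trans hv
  have h1 : rn v (h 1) ≤ ρ := (rn_le_mn v h 1).trans hv
  have hO : h ∈ O' v q := by
    intro w hw
    have := hh w
    rwa [Function.update_of_ne hw] at this
  have h5 := one_le_mul C h
  have hpos : 0 < rn v (h 0) := by
    rcases (rn_nonneg v (h 0)).lt_or_eq with h6 | h6
    · exact h6
    · rw [← h6, zero_mul] at h5
      linarith
  obtain ⟨k, hk1, hk2⟩ := exists_nat_pow_near_of_lt_one (x := rn v (h 0) / ρ) (y := 1 / 2) (by positivity)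
    ((div_le_one hρ).2 h0) (by norm_num) (by norm_num)
  rw [lt_div_iff₀ hρ] at hk1
  rw [div_le_iff₀ hρ] at hk2
  refine ⟨k, ?_⟩
  rw [blk', mem_E']
  refine ⟨?_, ?_, h1, hO⟩
  · rw [pow_succ] at hk1
    linarith
  · linarith

open Classical in
include C in
lemma vol_upper' (ρ : ℝ) (q : InfinitePlace K → ℝ) (hρ : 0 < ρ) :
    mu K (ball (Function.update q v ρ)) ≤
      ENNReal.ofReal (2 * 7 ^ v.mult * ρ ^ (2 * v.mult)) * mu K (ball (Function.update q v 4)) := by
  have hsub : ball (Function.update q v ρ) ⊆ ⋃ k : ℕ, blk' v ρ q k := by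
    intro h hh
    obtain ⟨k, hk⟩ := exists_blk' C ρ q hρ h hh
    exact Set.mem_iUnion.2 ⟨k, hk⟩
  calc mu K (ball (Function.update q v ρ)) ≤ mu K (⋃ k : ℕ, blk' v ρ q k) := measure_mono hsub
    _ ≤ ∑' k : ℕ, mu K (blk' v ρ q k) := measure_iUnion_le _
    _ ≤ ∑' k : ℕ, ENNReal.ofReal (7 ^ v.mult * ρ ^ (2 * v.mult) * (1 / 2) ^ k) *
          mu K (E' v q (1 / 2) 1 3) := by
        refine ENNReal.tsum_le_tsum fun k => (blk'_le C ρ q hρ k).trans ?_
        gcongr
        have e1 : (7 * (ρ * (ρ * (1 / 2) ^ k))) ^ v.mult = 7 ^ v.mult * ρ ^ (2 * v.mult) * ((1 / 2) ^ k) ^ v.mult := by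
          rw [mul_pow, mul_pow, mul_pow, pow_mul', sq]
          ring
        rw [e1]
        gcongr
        have h2 : ((1 / 2 : ℝ) ^ k) ^ v.mult ≤ ((1 / 2 : ℝ) ^ k) ^ 1 :=
          pow_le_pow_of_le_one (by positivity) (pow_le_one₀ (by norm_num) (by norm_num)) (mult_pos' v)
        simpa using h2
    _ = ENNReal.ofReal (2 * 7 ^ v.mult * ρ ^ (2 * v.mult)) * mu K (E' v q (1 / 2) 1 3) := by
        rw [ENNReal.tsum_mul_right]
        congr 1
        rw [← ENNReal.ofReal_tsum_of_nonneg]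
        · congr 1
          rw [tsum_mul_left, tsum_geometric_two]
          ring
        · intro k
          positivity
        · exact (summable_geometric_two).mul_left _
    _ ≤ _ := by
        gcongr
        exact E'_subset_ball q

end sets

section all

variable {K : Type} [Field K] [NumberField K]

open Classical in
lemma vol_step (v : InfinitePlace K) (ρ : ℝ) (q : InfinitePlace K → ℝ) (hρ : 0 < ρ) :
    mu K (ball (Function.update q v ρ)) ≤
      ENNReal.ofReal (2 * 7 ^ v.mult * ρ ^ (2 * v.mult)) * mu K (ball (Function.update q v 4)) := by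
  rcases v.isReal_or_isComplex with hv | hv
  · exact vol_upper' (compReal v hv) ρ q hρ
  · exact vol_upper' (compComplex v hv) ρ q hρ

open Classical in
lemma vol_all (R : ℝ) (hR : 0 < R) (s : Finset (InfinitePlace K)) :
    mu K (ball fun w => if w ∈ s then R else 4) ≤
      ENNReal.ofReal (∏ w ∈ s, (2 * 7 ^ w.mult * R ^ (2 * w.mult))) * mu K (ball fun _ => 4) := by
  induction s using Finset.induction_on with
  | empty => simp
  | insert v s hv ih =>
    have e1 : (fun w => if w ∈ insert v s then R else 4) =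
        Function.update (fun w => if w ∈ s then R else (4 : ℝ)) v R := by
      funext w
      by_cases hw : w = v
      · subst hw
        simp
      · rw [Function.update_of_ne hw]
        simp [hw]
    have e2 : Function.update (fun w => if w ∈ s then R else (4 : ℝ)) v 4 =
        fun w => if w ∈ s then R else (4 : ℝ) := by
      funext w
      by_cases hw : w = v
      · subst hw
        simp [hv]
      · rw [Function.update_of_ne hw]
    have h1 := vol_step v R (fun w => if w ∈ s then R else (4 : ℝ)) hR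
    rw [e2] at h1
    rw [e1, Finset.prod_insert hv, ENNReal.ofReal_mul (by positivity), mul_assoc]
    exact h1.trans (by gcongr)

end all

end VOLPkg

/-- the volume of the balls -/
theorem uvol : U_vol := by
  classical
  intro K _ _
  set D := mu K (ball fun _ => (4 : ℝ)) with hD
  have hDt : D < ∞ := (VolPkg.isCompact_ball _).measure_lt_top
  set δ : ℝ := D.toReal with hδ
  have hδ0 : 0 ≤ δ := ENNReal.toReal_nonneg
  have hDδ : D = ENNReal.ofReal δ := (ENNReal.ofReal_toReal hDt.ne).symm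
  refine ⟨(∏ w : InfinitePlace K, (2 * 7 ^ w.mult : ℝ)) * (δ + 1), by positivity, ?_⟩
  intro R hR
  have h1 := VOLPkg.vol_all (K := K) R (by linarith) Finset.univ
  simp only [Finset.mem_univ, if_true] at h1
  refine h1.trans ?_
  rw [← hD, hDδ, ← ENNReal.ofReal_mul (by positivity)]
  apply ENNReal.ofReal_le_ofReal
  have e1 : ∏ w : InfinitePlace K, (2 * 7 ^ w.mult * R ^ (2 * w.mult)) =
      (∏ w : InfinitePlace K, (2 * 7 ^ w.mult : ℝ)) * R ^ (2 * Module.finrank ℚ K) := by
    rw [Finset.prod_mul_distrib, Finset.prod_pow_eq_pow_sum, ← Finset.mul_sum, sum_mult_eq]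
  rw [e1]
  have hp : 0 ≤ (∏ w : InfinitePlace K, (2 * 7 ^ w.mult : ℝ)) * R ^ (2 * Module.finrank ℚ K) := by positivity
  calc (∏ w : InfinitePlace K, (2 * 7 ^ w.mult : ℝ)) * R ^ (2 * Module.finrank ℚ K) * δ
      ≤ (∏ w : InfinitePlace K, (2 * 7 ^ w.mult : ℝ)) * R ^ (2 * Module.finrank ℚ K) * (δ + 1) := by
        gcongr
        linarith
    _ = _ := by ring

end Pool.Agent.T2h77V
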