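import Pool.Agent.T2h77.GeoP3
import Pool.Agent.T2h77V.Stm

/-!
# The trace of the kernel, uniformly in the prime
-/

set_option autoImplicit false
set_option linter.unusedSectionVars false
set_option linter.deprecated false

open NumberField NumberField.mixedEmbedding MeasureTheory Matrix IsDedekindDomain
open scoped MatrixGroups ENNReal

noncomputable section

namespace Pool.Agent.T2h77V

open Pool.Agent.T2h77 Pool.Agent.T2h77.PP Pool.Agent.T2h77.Cnt Pool.Agent.T2h77.An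

/-- decomposition with respect to the level -/
theorem usum_fixP (hc : U_count) (K : Type) [Field K] [NumberField K] :
    ∃ A' : ℕ, ∀ ε : ℝ, 0 < ε → ∃ C : ℝ, 0 < C ∧ ∀ (𝔭 : HeightOneSpectrum (𝓞 K)) (C₀ : ℝ), 1 ≤ C₀ →
      ∀ Γ : Subgroup SL(2, K), IsCongrP 𝔭.asIdeal Γ → ∀ m : ℕ,
      ∀ s : Finset SL(2, K), (∀ δ ∈ s, δ ∈ Lk 𝔭.asIdeal m ∧ ∀ w, mn w (jo K δ) ≤ C₀) →
      ∑ δ ∈ s, (fixP Γ δ : ℝ) * (pn 𝔭 δ)⁻¹ ≤
        C * C₀ ^ A' * qq 𝔭 * ((ic Γ).index * qq 𝔭 ^ m) ^ (2 * ε) * ((ic Γ).index + qq 𝔭 ^ m) := by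
  classical
  obtain ⟨A', hcA⟩ := hc K
  refine ⟨A', fun ε hε => ?_⟩
  obtain ⟨C', hC', hcount'⟩ := hcA ε hε
  refine ⟨2 + (1 + 2 / ε) * C', by positivity, ?_⟩
  intro 𝔭 C₀ hC₀
  set C : ℝ := C' * C₀ ^ A' with hCd
  have hC : 0 < C := by positivity
  have hcount := hcount' 𝔭.asIdeal 𝔭.isPrime 𝔭.ne_bot C₀ hC₀
  have hq2 := two_le_qq 𝔭
  have hq0 := qq_pos 𝔭
  set q := qq 𝔭 with hq
  set A : ℝ := 1 + 2 / ε with hA
  have hA0 : 0 < A := by positivity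
  intro Γ hΓ m s hs
  have hfi := index_ne_zero_of_congr (congr_ic hΓ)
  set n : ℝ := ((ic Γ).index : ℝ) with hn
  have hn1 : 1 ≤ n := by
    rw [hn]
    exact_mod_cast Nat.one_le_iff_ne_zero.2 hfi.index_ne_zero
  have hn0 : 0 < n := by linarith
  set X : ℝ := q ^ m with hX
  have hX1 : 1 ≤ X := one_le_pow₀ (by linarith)
  have hX0 : 0 < X := by linarith
  set T : SL(2, K) → ℝ := fun δ => pn 𝔭 δ with hT
  have hT1 : ∀ δ, 1 ≤ T δ := fun δ => one_le_pn 𝔭 δ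
  have hnX : 1 ≤ n * X := by nlinarith
  have hP1 : 1 ≤ (n * X) ^ (2 * ε) := Real.one_le_rpow hnX (by positivity)
  -- the part `δ = ± 1`
  set s₁ := s.filter (fun δ => δ = 1 ∨ δ = -1) with hs₁
  set s₂ := s.filter (fun δ => ¬ (δ = 1 ∨ δ = -1)) with hs₂
  have hsplit : ∑ δ ∈ s, (fixP Γ δ : ℝ) * (T δ)⁻¹ =
      ∑ δ ∈ s₁, (fixP Γ δ : ℝ) * (T δ)⁻¹ + ∑ δ ∈ s₂, (fixP Γ δ : ℝ) * (T δ)⁻¹ :=
    (Finset.sum_filter_add_sum_filter_not _ _ _).symm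
  have hsum1 : ∑ δ ∈ s₁, (fixP Γ δ : ℝ) * (T δ)⁻¹ ≤ 2 * n := by
    have h1 : ∑ δ ∈ s₁, (fixP Γ δ : ℝ) * (T δ)⁻¹ ≤ ∑ δ ∈ s₁, n := by
      refine Finset.sum_le_sum fun δ _ => ?_
      have h2 := fixP_le_index Γ δ
      have h3 : (T δ)⁻¹ ≤ 1 := inv_le_one_of_one_le₀ (hT1 δ)
      have h4 : (0 : ℝ) ≤ fixP Γ δ := Nat.cast_nonneg _
      nlinarith
    rw [Finset.sum_const, nsmul_eq_mul] at h1
    have h5 : s₁.card ≤ 2 := by
      have : s₁ ⊆ {1, -1} := by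
        intro δ hδ
        rw [hs₁, Finset.mem_filter] at hδ
        simpa using hδ.2
      exact (Finset.card_le_card this).trans Finset.card_le_two
    have h6 : (s₁.card : ℝ) ≤ 2 := by exact_mod_cast h5
    nlinarith
  -- the pieces
  have hmaps : ∀ δ ∈ s₂, lvl 𝔭.asIdeal δ ∈ Finset.range (m + 1) := by
    intro δ hδ
    rw [hs₂, Finset.mem_filter] at hδ
    rw [Finset.mem_range, Nat.lt_succ_iff]
    exact lvl_le (hs δ hδ.1).1
  have hpiece : ∀ j ∈ Finset.range (m + 1), ∑ δ ∈ s₂ with lvl 𝔭.asIdeal δ = j, (fixP Γ δ : ℝ) * (T δ)⁻¹ ≤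
      q * C * (n * X) ^ ε * (n + X) := by
    intro j hj
    have hjJ : j ≤ m := Nat.lt_succ_iff.1 (Finset.mem_range.1 hj)
    have h2J : q ^ j ≤ X := pow_le_pow_right₀ (by linarith) hjJ
    have h2j : (0 : ℝ) < q ^ j := by positivity
    have h1 : ∑ δ ∈ s₂ with lvl 𝔭.asIdeal δ = j, (fixP Γ δ : ℝ) * (T δ)⁻¹ ≤
        (q * (q ^ j)⁻¹) * ∑ δ ∈ s₂ with lvl 𝔭.asIdeal δ = j, (fixP Γ δ : ℝ) := by
      rw [Finset.mul_sum]
      refine Finset.sum_le_sum fun δ hδ => ?_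
      rw [Finset.mem_filter] at hδ
      rw [mul_comm]
      have h3 := pow_lvl_le 𝔭 (hs δ (Finset.mem_filter.1 hδ.1).1).1
      rw [hδ.2] at h3
      have h4 : (T δ)⁻¹ ≤ q * (q ^ j)⁻¹ := by
        rw [← div_eq_mul_inv, le_div_iff₀ h2j, inv_mul_le_iff₀ (by linarith [hT1 δ])]
        rw [mul_comm]
        exact h3
      gcongr
    have h2 := hcount Γ hΓ j (s₂.filter fun δ => lvl 𝔭.asIdeal δ = j)
      (fun δ hδ => by
        rw [Finset.mem_filter, hs₂, Finset.mem_filter, not_or] at hδ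
        refine ⟨hδ.1.2.1, hδ.1.2.2, ?_, (hs δ hδ.1.1).2⟩
        have h3 := lvl_mem (hs δ hδ.1.1).1
        rwa [hδ.2] at h3)
    calc ∑ δ ∈ s₂ with lvl 𝔭.asIdeal δ = j, (fixP Γ δ : ℝ) * (T δ)⁻¹
        ≤ (q * (q ^ j)⁻¹) * (C * (n * q ^ j) ^ ε * (n * q ^ j + (q ^ j) ^ 2)) :=
          h1.trans (by gcongr)
      _ = q * C * (n * q ^ j) ^ ε * (n + q ^ j) := by
          field_simp
      _ ≤ q * C * (n * X) ^ ε * (n + X) := by
          have h6 : (n * q ^ j) ^ ε ≤ (n * X) ^ ε :=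
            Real.rpow_le_rpow (by positivity) (by gcongr) hε.le
          gcongr
  have hJ1 : (m : ℝ) + 1 ≤ A * (n * X) ^ ε := by
    have h1 : (2 : ℝ) ^ m ≤ n * X := by
      calc (2 : ℝ) ^ m ≤ q ^ m := by gcongr
        _ ≤ n * X := by nlinarith
    have h2 : (m : ℝ) * Real.log 2 ≤ Real.log (n * X) := by
      rw [← Real.log_pow]
      exact Real.log_le_log (by positivity) h1
    have h3 : (1 / 2 : ℝ) ≤ Real.log 2 := by
      have := Real.log_two_gt_d9; linarith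
    have h4 : Real.log (n * X) ≤ (n * X) ^ ε / ε := Real.log_le_rpow_div (by positivity) hε
    have h5 : 1 ≤ (n * X) ^ ε := Real.one_le_rpow hnX hε.le
    have h6 : (m : ℝ) ≤ 2 * ((n * X) ^ ε / ε) := by
      have : (0 : ℝ) ≤ m := Nat.cast_nonneg _
      nlinarith
    rw [hA, add_mul, one_mul]
    have : 2 / ε * (n * X) ^ ε = 2 * ((n * X) ^ ε / ε) := by ring
    rw [this]
    linarith
  have hsum2 : ∑ δ ∈ s₂, (fixP Γ δ : ℝ) * (T δ)⁻¹ ≤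
      A * (q * C) * (n * X) ^ (2 * ε) * (n + X) := by
    rw [← Finset.sum_fiberwise_of_maps_to hmaps]
    calc _ ≤ ∑ j ∈ Finset.range (m + 1), q * C * (n * X) ^ ε * (n + X) :=
          Finset.sum_le_sum hpiece
      _ = ((m : ℝ) + 1) * (q * C * (n * X) ^ ε * (n + X)) := by
          rw [Finset.sum_const, Finset.card_range, nsmul_eq_mul]; push_cast; ring
      _ ≤ (A * (n * X) ^ ε) * (q * C * (n * X) ^ ε * (n + X)) := by gcongr
      _ = _ := by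
          have : (n * X) ^ (2 * ε) = (n * X) ^ ε * (n * X) ^ ε := by
            rw [← Real.rpow_add (by positivity)]; ring_nf
          rw [this]; ring
  rw [hsplit]
  have hCA : 1 ≤ C₀ ^ A' := one_le_pow₀ hC₀
  have hfin : 2 + A * (q * C) ≤ (2 + A * C') * C₀ ^ A' * q := by
    rw [hCd]
    have h1 : 2 ≤ 2 * C₀ ^ A' * q := by nlinarith
    nlinarith
  calc _ ≤ 2 * n + A * (q * C) * (n * X) ^ (2 * ε) * (n + X) := add_le_add hsum1 hsum2
    _ ≤ 2 * (n * X) ^ (2 * ε) * (n + X) + A * (q * C) * (n * X) ^ (2 * ε) * (n + X) := by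
        have : 2 * n ≤ 2 * (n * X) ^ (2 * ε) * (n + X) := by nlinarith
        linarith
    _ = (2 + A * (q * C)) * (n * X) ^ (2 * ε) * (n + X) := by ring
    _ ≤ _ := by gcongr

/-- the trace of the kernel at a point of a compact set -/
theorem utrace (hc : U_count) (K : Type) [Field K] [NumberField K] :
    ∃ A' : ℕ, ∀ (ρ₀ : ℝ), 1 ≤ ρ₀ → ∀ ε : ℝ, 0 < ε → ∃ C : ℝ, 0 < C ∧
      ∀ (𝔭 : HeightOneSpectrum (𝓞 K)) (R : ℝ), 1 ≤ R →
      ∀ Γ : Subgroup SL(2, K), IsCongrP 𝔭.asIdeal Γ → ∀ k : ℕ,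
      ∀ g : GG K, (∀ w, mn w g ≤ R) →
      ∑' δ : (jo K).range, (Nat.card {y : SL(2, 𝓞 K) ⧸ ic Γ //
          (io K y.out)⁻¹ * δ * io K y.out ∈ Γ.map (jo K)} : ℝ≥0∞) * cc 𝔭 k δ *
        kk (mu K) (ball fun _ => ρ₀) (g⁻¹ * δ * g) ≤
      ENNReal.ofReal ((C * R ^ A' * qq 𝔭) * qq 𝔭 ^ (2 * k) *
        ((ic Γ).index * qq 𝔭 ^ (2 * k)) ^ (2 * ε) * ((ic Γ).index + qq 𝔭 ^ (2 * k))) := by
  classical
  obtain ⟨A₁, hsA⟩ := usum_fixP hc K
  refine ⟨2 * A₁, fun ρ₀ hρ₀ ε hε => ?_⟩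
  obtain ⟨C₂', hC₂', hs'⟩ := hsA ε hε
  set B : Set (GG K) := ball fun _ => ρ₀ with hB
  have hBfin : mu K B ≠ ∞ := (isCompact_ball _).measure_lt_top.ne
  set V : ℝ := (mu K B).toReal with hV
  have hV0 : 0 ≤ V := ENNReal.toReal_nonneg
  refine ⟨2 * V * (C₂' * ρ₀ ^ (2 * A₁)) + 1, by positivity, fun 𝔭 R hR Γ hΓ k g hg => ?_⟩
  have hq0 := qq_pos 𝔭
  have hq2 := two_le_qq 𝔭
  have hR2 : 1 ≤ R ^ 2 * ρ₀ ^ 2 := one_le_mul_of_one_le_of_one_le (one_le_pow₀ hR) (one_le_pow₀ hρ₀)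
  have hs := hs' 𝔭 (R ^ 2 * ρ₀ ^ 2) hR2
  set C₂ : ℝ := C₂' * (R ^ 2 * ρ₀ ^ 2) ^ A₁ * qq 𝔭 with hC₂d
  have hC₂ : 0 < C₂ := by positivity
  set q := qq 𝔭 with hq
  set n : ℝ := ((ic Γ).index : ℝ) with hn
  have hn0 : 0 ≤ n := Nat.cast_nonneg _
  set X : ℝ := q ^ (2 * k) with hX
  have hX0 : 0 < X := by positivity
  set P : SL(2, K) → Prop := fun δ => δ ∈ Lk 𝔭.asIdeal (2 * k) ∧ ∀ w, mn w (jo K δ) ≤ R ^ 2 * ρ₀ ^ 2 with hP
  rw [← (MonoidHom.ofInjective (jo_injective (K := K))).toEquiv.tsum_eq]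
  have hpt : ∀ γ : SL(2, K), (Nat.card {y : SL(2, 𝓞 K) ⧸ ic Γ //
          (io K y.out)⁻¹ * jo K γ * io K y.out ∈ Γ.map (jo K)} : ℝ≥0∞) * cc 𝔭 k (jo K γ) *
        kk (mu K) B (g⁻¹ * jo K γ * g) ≤
      ENNReal.ofReal (2 * X * V) * (if P γ then ENNReal.ofReal ((fixP Γ γ : ℝ) * (pn 𝔭 γ)⁻¹) else 0) := by
    intro γ
    have hcard : Nat.card {y : SL(2, 𝓞 K) ⧸ ic Γ //
          (io K y.out)⁻¹ * jo K γ * io K y.out ∈ Γ.map (jo K)} = fixP Γ γ := by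
      unfold fixP
      refine Nat.card_congr (Equiv.subtypeEquivRight fun y => ?_)
      rw [← jo_oK, ← map_inv, ← map_mul, ← map_mul]
      constructor
      · rintro ⟨γ', h1, h2⟩
        rw [← jo_injective h2]
        exact h1
      · exact fun h => Subgroup.mem_map_of_mem _ h
    rw [hcard]
    by_cases hL : γ ∈ Lk 𝔭.asIdeal (2 * k)
    · by_cases hk0 : kk (mu K) B (g⁻¹ * jo K γ * g) = 0
      · rw [hk0, mul_zero]; exact bot_le
      have hPγ : P γ := by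
        refine ⟨hL, fun w => (mn_conj_le w g (jo K γ)).trans ?_⟩
        have h1 := kk_supp' hk0 w
        have h2 := hg w
        have h3 := mn_nonneg w g
        have h4 := mn_nonneg w (g⁻¹ * jo K γ * g)
        gcongr
      rw [if_pos hPγ, cc_apply, if_pos hL, ← ENNReal.ofReal_mul (by positivity)]
      have hkV : kk (mu K) B (g⁻¹ * jo K γ * g) ≤ ENNReal.ofReal V := by
        rw [hV, ENNReal.ofReal_toReal hBfin]
        exact measure_mono Set.inter_subset_left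
      have h1 := one_le_pn 𝔭 γ
      have hpn : 0 ≤ (pn 𝔭 γ)⁻¹ := by positivity
      calc (fixP Γ γ : ℝ≥0∞) * ENNReal.ofReal (2 * X * (pn 𝔭 γ)⁻¹) * kk (mu K) B (g⁻¹ * jo K γ * g)
          ≤ (fixP Γ γ : ℝ≥0∞) * ENNReal.ofReal (2 * X * (pn 𝔭 γ)⁻¹) * ENNReal.ofReal V := by gcongr
        _ = ENNReal.ofReal (fixP Γ γ : ℝ) * ENNReal.ofReal (2 * X * (pn 𝔭 γ)⁻¹) * ENNReal.ofReal V := by
            rw [ENNReal.ofReal_natCast]
        _ = ENNReal.ofReal ((fixP Γ γ : ℝ) * (2 * X * (pn 𝔭 γ)⁻¹) * V) := by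
            rw [← ENNReal.ofReal_mul (Nat.cast_nonneg _), ← ENNReal.ofReal_mul (by positivity)]
        _ = _ := by congr 1; ring
    · rw [cc_apply, if_neg hL, mul_zero, zero_mul]; exact bot_le
  refine (ENNReal.tsum_le_tsum hpt).trans ?_
  rw [ENNReal.tsum_mul_left]
  have hsum : ∑' δ : SL(2, K), (if P δ then
      ENNReal.ofReal ((fixP Γ δ : ℝ) * (pn 𝔭 δ)⁻¹) else 0) ≤
      ENNReal.ofReal (C₂ * (n * X) ^ (2 * ε) * (n + X)) := by
    rw [ENNReal.tsum_eq_iSup_sum]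
    refine iSup_le fun s => ?_
    rw [← Finset.sum_filter, ← ENNReal.ofReal_sum_of_nonneg fun δ _ => ?_]
    · apply ENNReal.ofReal_le_ofReal
      exact hs Γ hΓ (2 * k) _ fun δ hδ => (Finset.mem_filter.1 hδ).2
    · have := one_le_pn 𝔭 δ
      positivity
  calc _ ≤ ENNReal.ofReal (2 * X * V) * ENNReal.ofReal (C₂ * (n * X) ^ (2 * ε) * (n + X)) := by gcongr
    _ = ENNReal.ofReal (2 * X * V * (C₂ * (n * X) ^ (2 * ε) * (n + X))) :=
        (ENNReal.ofReal_mul (by positivity)).symm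
    _ ≤ _ := by
        apply ENNReal.ofReal_le_ofReal
        have h1 : 0 ≤ (n * X) ^ (2 * ε) := by positivity
        have h2 : 0 ≤ X * (n * X) ^ (2 * ε) * (n + X) := by positivity
        have h3 : 2 * V * C₂ ≤ (2 * V * (C₂' * ρ₀ ^ (2 * A₁)) + 1) * R ^ (2 * A₁) * q := by
          have h4 : 2 * V * C₂ = (2 * V * (C₂' * ρ₀ ^ (2 * A₁))) * R ^ (2 * A₁) * q := by
            rw [hC₂d, mul_pow, ← pow_mul, ← pow_mul]; ring
          rw [h4]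
          gcongr
          linarith
        calc 2 * X * V * (C₂ * (n * X) ^ (2 * ε) * (n + X))
            = (2 * V * C₂) * (X * (n * X) ^ (2 * ε) * (n + X)) := by ring
          _ ≤ ((2 * V * (C₂' * ρ₀ ^ (2 * A₁)) + 1) * R ^ (2 * A₁) * q) *
              (X * (n * X) ^ (2 * ε) * (n + X)) := by gcongr
          _ = _ := by ring

end Pool.Agent.T2h77V
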