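import Pool.Agent.T2h74.TY5
import Pool.Agent.T2h77V.DP

/-!
# The density theorem at the finite places for all weights, uniformly in the prime
-/

set_option autoImplicit false
set_option linter.unusedSectionVars false
set_option linter.deprecated false

open NumberField NumberField.mixedEmbedding MeasureTheory Matrix IsDedekindDomain
open scoped MatrixGroups ENNReal

noncomputable section

namespace Pool.Agent.T2h77V

open Pool.Agent.T2h77 Pool.Agent.T2h74 Pool.Agent.T2h77.An Pool.Agent.T2h77.PP Pool.Agent.T2h77.Cnt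

attribute [local irreducible] Pool.Agent.T2h74.psi Pool.Agent.T2h74.nf

/-- the density theorem at a finite place, for all weights, uniformly in the place -/
def UDensityT (K : Type) [Field K] [NumberField K] : Prop :=
  ∃ A : ℕ, ∀ (ε : ℝ) (L : ℕ), 0 < ε → ∃ C : ℝ, 0 < C ∧
    ∀ (𝔭 : Ideal (𝓞 K)), 𝔭.IsPrime → 𝔭 ≠ ⊥ → ∀ Γ : Subgroup SL(2, K), IsCongrP 𝔭 Γ →
    ∀ 𝓕 : Set (GG K), IsFundamentalDomain ((ic Γ).map (io K)) 𝓕 (mu K) →
    ∀ (k : ℕ) (N : Fin k → InfinitePlace K → ℕ) (σ : Fin k → InfinitePlace K → ℤˣ)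
      (ν : Fin k → InfinitePlace K → ℂ) (τ : Fin k → ℂ) (f : Fin k → GG K → ℂ),
      (∀ i, Continuous (f i)) → (∀ i, ∀ γ ∈ ic Γ, ∀ g, f i (io K γ * g) = f i g) →
      (∀ i, HasType (N i) (σ i) (ν i) (f i)) →
      (∀ i, MemLp (f i) 2 ((mu K).restrict 𝓕)) →
      (∀ i, IsHecke 𝔭 Γ (τ i) (f i)) →
      (∀ i, (τ i).im = 0 ∧ ε ≤ (τ i).re ∧ (τ i).re ≤ 1 / 2) →
      (∀ i w, N i w ≤ L) → (∀ i w, ‖ν i w‖ ≤ L) → LinearIndependent ℂ f →
      ∑ i, ((ic Γ).index : ℝ) ^ (2 * (τ i).re) ≤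
        C * (Ideal.absNorm 𝔭 : ℝ) ^ A * ((ic Γ).index : ℝ) ^ (1 + ε)

theorem udensityT_of (h1 : S_unimod) (h4 : U_red) (h4' : U_vol) (h5 : U_count)
    (K : Type) [Field K] [NumberField K] : UDensityT K := by
  classical
  have hunim : (mu K).IsMulRightInvariant := h1 K
  have hcSL := countable_SL K
  have hcR : Countable (jo K).range := by
    have : Function.Surjective (jo K).rangeRestrict := (jo K).rangeRestrict_surjective
    exact this.countable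
  obtain ⟨A', htrA⟩ := utrace h5 K
  obtain ⟨Cr, hCr, hred'⟩ := h4 K
  obtain ⟨Cv, hCv, hvol⟩ := h4' K
  set d : ℕ := Module.finrank ℚ K with hd
  refine ⟨2 + 4 * d + 2 * A' + 1, ?_⟩
  intro ε L hε
  obtain ⟨δ, c₀, hδ0, hδ1, hc₀, hker⟩ := kernel K L
  set ρ₀ : ℝ := 4 with hρ₀
  have hρ₁ : (1 : ℝ) ≤ ρ₀ := by rw [hρ₀]; norm_num
  set B : Set (GG K) := ball fun _ => ρ₀ with hB
  have hSB : SC (mu K) B := SC_ball _
  have hBfin : mu K B ≠ ∞ := (isCompact_ball _).measure_lt_top.ne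
  set V : ℝ := (mu K B).toReal with hV
  have hV0 : 0 ≤ V := ENNReal.toReal_nonneg
  set U : ℝ := c₀ * 2 with hU
  have hU0 : 0 < U := by positivity
  set b : ℝ := bd (K := K) (fun _ => ρ₀) with hb
  have hb1 : 1 ≤ b := one_le_bd hρ₁
  obtain ⟨Ck, hCk, hkk⟩ := exists_ku (b := b * (V + 1) / U) (ε := ε) (by positivity) hε
  set ε' : ℝ := ε / 4 with hε'
  have hε'0 : 0 < ε' := by positivity
  obtain ⟨C₃', hC₃', htr'⟩ := htrA ρ₀ hρ₁ ε' hε'0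
  set E₀ : ℝ := Cr * (b * Ck) with hE₀
  have hE₀1 : 1 ≤ E₀ := one_le_mul_of_one_le_of_one_le hCr (one_le_mul_of_one_le_of_one_le hb1 hCk)
  have hE₀0 : 0 < E₀ := by linarith
  refine ⟨(U ^ 2 / 4)⁻¹ * (4 * (Cv * E₀ ^ (2 * d)) * (C₃' * E₀ ^ A')) + 1, by positivity, ?_⟩
  intro 𝔭i hp hp0
  set 𝔭 : HeightOneSpectrum (𝓞 K) := ⟨𝔭i, hp, hp0⟩ with h𝔭
  have hq2 := two_le_qq 𝔭
  have hq0 := qq_pos 𝔭
  have hqN : (Ideal.absNorm 𝔭i : ℝ) = qq 𝔭 := rfl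
  rw [hqN]
  set q : ℝ := qq 𝔭 with hq
  obtain ⟨k₁, hk₁, hkq⟩ := hkk q hq2
  set Y : ℝ := b * q ^ (2 * k₁) with hY
  have hY1 : 1 ≤ Y := one_le_mul_of_one_le_of_one_le hb1 (one_le_pow₀ (by linarith))
  set R : ℝ := Cr * Y with hRd
  have hR : 1 ≤ R := one_le_mul_of_one_le_of_one_le hCr hY1
  have hRE : R ≤ E₀ * q ^ 2 := by
    rw [hRd, hY, hE₀]
    calc Cr * (b * q ^ (2 * k₁)) ≤ Cr * (b * (Ck * q ^ 2)) := by gcongr
      _ = _ := by ring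
  set Ω : Set (GG K) := ball (fun _ => R) with hΩd
  have hΩ : IsCompact Ω := isCompact_ball _
  have hred : ∀ g : GG K, Wle Y g → ∃ γ : SL(2, 𝓞 K), io K γ * g ∈ Ω := by
    intro g hg
    obtain ⟨γ, hγ⟩ := hred' Y hY1 g hg
    exact ⟨γ, hγ⟩
  have hRb : ∀ g ∈ Ω, ∀ w, mn w g ≤ R := fun g hg w => hg w
  set C₃ : ℝ := C₃' * R ^ A' * q with hC₃d
  have hC₃ : 0 < C₃ := by positivity
  have htr := htr' 𝔭 R hR
  set VΩ : ℝ := (mu K Ω).toReal with hVΩ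
  have hVΩ0 : 0 ≤ VΩ := ENNReal.toReal_nonneg
  have hVΩ1 : VΩ ≤ Cv * R ^ (2 * d) :=
    ENNReal.toReal_le_of_le_ofReal (by positivity) (hvol R hR)
  intro Γ hΓ 𝓕 h𝓕 r NN σ ν τ f hfc hfinv hty hL2 hH hτ hNN hν hli
  have hfi := index_ne_zero_of_congr (congr_ic hΓ)
  set n : ℝ := ((ic Γ).index : ℝ) with hn
  have hn1 : 1 ≤ n := by
    rw [hn]
    exact_mod_cast Nat.one_le_iff_ne_zero.2 hfi.index_ne_zero
  have hn0 : 0 < n := by linarith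
  -- the level of the Hecke operator
  set N : ℕ := Ideal.absNorm 𝔭.asIdeal with hN
  have hN2 : 2 ≤ N := by
    have h : (2 : ℝ) ≤ (N : ℝ) := hq2
    exact_mod_cast h
  set k : ℕ := Nat.log (N ^ 2) (ic Γ).index with hk
  set X : ℝ := q ^ (2 * k) with hX
  have hXn : X ≤ n := by
    have h := Nat.pow_log_le_self (N ^ 2) hfi.index_ne_zero
    have h' : (((N ^ 2) ^ k : ℕ) : ℝ) ≤ ((ic Γ).index : ℝ) := by exact_mod_cast h
    refine le_trans (le_of_eq ?_) h'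
    rw [hX, pow_mul]
    push_cast
    rfl
  have hnX : n ≤ q ^ 2 * X := by
    have h := Nat.lt_pow_succ_log_self (b := N ^ 2) (by nlinarith) (ic Γ).index
    have h' : n ≤ ((N ^ 2) ^ (k + 1) : ℕ) := by
      rw [hn]; exact_mod_cast h.le
    refine h'.trans (le_of_eq ?_)
    rw [hX, pow_mul, pow_succ]
    push_cast
    ring
  have hX1 : 1 ≤ X := one_le_pow₀ (by linarith)
  have hX0 : 0 < X := by linarith
  have hcount := countable_ic Γ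
  have : Fact (IsFundamentalDomain ((ic Γ).map (io K)) 𝓕 (mu K)) := ⟨h𝓕⟩
  obtain ⟨s, hs⟩ := exists_reps 𝔭 Γ k
  obtain ⟨s', hs'⟩ := exists_reps 𝔭 Γ k₁
  -- the eigenfunctions
  have hLI : ∀ i, LI (mu K) ((ic Γ).map (io K)) 𝓕 (f i) := by
    intro i
    refine ⟨hfc i, ?_, ?_⟩
    · rintro _ ⟨γ, hγ, rfl⟩ g
      exact hfinv i γ hγ g
    · have h := (hL2 i).eLpNorm_lt_top
      rw [eLpNorm_lt_top_iff_lintegral_rpow_enorm_lt_top (by norm_num) (by norm_num)] at h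
      have e : ∫⁻ g in 𝓕, ‖f i g‖ₑ ^ 2 ∂(mu K) =
          ∫⁻ g in 𝓕, ‖f i g‖ₑ ^ (2 : ℝ≥0∞).toReal ∂(mu K) := by
        refine lintegral_congr fun g => ?_
        rw [ENNReal.toReal_ofNat, ENNReal.rpow_ofNat]
      rw [e]
      exact h.ne
  set φ : Fin r → LE (mu K) ((ic Γ).map (io K)) 𝓕 := fun i => ⟨f i, hLI i⟩ with hφ
  choose a ha haR using fun i => hker (NN i) (σ i) (ν i) (hNN i) (hν i)
  set ev : ℕ → Fin r → ℂ := fun k i => (q : ℂ) ^ k *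
      (∑ j ∈ Finset.range (2 * k + 1), (q : ℂ) ^ (2 * ((j : ℂ) - k) * τ i)) with hev
  have hsph : ∀ i, RP (kc δ) (a i) (φ i : GG K → ℂ) := fun i => haR i (f i) (hty i)
  have hHT : ∀ (k : ℕ) (s : Finset SL(2, K)), IsReps 𝔭.asIdeal Γ k s → ∀ i g,
      HT (im s) (φ i : GG K → ℂ) g = ev k i * (φ i : GG K → ℂ) g := by
    intro k s hs i g
    unfold HT im
    rw [Finset.sum_map]
    have := hH i k s hs g
    exact this
  have hlin : LinearIndependent ℂ φ :=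
    LinearIndependent.of_comp (LE (mu K) ((ic Γ).map (io K)) 𝓕).subtype hli
  -- the eigenvalues
  have hbd : ∀ (k : ℕ) i, q ^ k * q ^ (2 * k * (τ i).re) * (U / 2) ≤ ‖ev k i * a i‖ := by
    intro k i
    rw [norm_mul]
    have h6 := hecke_lower (q := q) (by linarith) k (hτ i).1
    have h7 : U / 2 ≤ ‖a i‖ := by rw [hU]; linarith [ha i]
    exact mul_le_mul h6 h7 (by positivity) (norm_nonneg _)
  set Λ : ℝ := V * b * (2 * (2 * k₁ + 1) * q ^ k₁) with hΛ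
  have hΛ0 : 0 ≤ Λ := by positivity
  have hlow' : ∀ i, 2 * Λ ≤ ‖ev k₁ i * a i‖ := by
    intro i
    refine le_trans ?_ (hbd k₁ i)
    have e1 : q ^ (2 * k₁ * ε) ≤ q ^ (2 * k₁ * (τ i).re) := by
      apply Real.rpow_le_rpow_of_exponent_le (by linarith)
      have := (hτ i).2.1
      gcongr
    have e2 : 8 * b * V * (2 * k₁ + 1) ≤ q ^ (2 * k₁ * ε) * U := by
      have e3 : 8 * (b * (V + 1) / U) * (2 * k₁ + 1) * U = 8 * b * (V + 1) * (2 * k₁ + 1) := by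
        field_simp
      calc 8 * b * V * (2 * k₁ + 1) ≤ 8 * b * (V + 1) * (2 * k₁ + 1) := by
            gcongr; linarith
        _ = 8 * (b * (V + 1) / U) * (2 * k₁ + 1) * U := e3.symm
        _ ≤ _ := by gcongr
    calc 2 * Λ = q ^ k₁ * (8 * b * V * (2 * k₁ + 1)) / 2 := by rw [hΛ]; ring
      _ ≤ q ^ k₁ * (q ^ (2 * k₁ * ε) * U) / 2 := by gcongr
      _ = q ^ k₁ * q ^ (2 * k₁ * ε) * (U / 2) := by ring
      _ ≤ _ := by gcongr
  have hll : ∀ i, 2 * ENNReal.ofReal Λ ^ 2 ≤ ‖ev k₁ i * a i‖ₑ ^ 2 := by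
    intro i
    rw [enorm_sq_eq, ← ENNReal.ofReal_pow hΛ0]
    have : (2 : ℝ≥0∞) = ENNReal.ofReal 2 := by simp
    rw [this, ← ENNReal.ofReal_mul (by norm_num)]
    apply ENNReal.ofReal_le_ofReal
    have := hlow' i
    nlinarith
  have h0 : ∀ i, ev k₁ i * a i ≠ 0 := by
    intro i h
    have := hbd k₁ i
    rw [h, norm_zero] at this
    have : 0 < q ^ k₁ * q ^ (2 * k₁ * (τ i).re) * (U / 2) := by positivity
    linarith
  have htrace := traceT hδ0.le hδ1 (reps_hs hs) (reps_hs hs') a (ev k) (ev k₁) φ hsph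
    (hHT k s hs) (hHT k₁ s' hs') hlin (measurableSet_DD Y)
    (fun F hFm hFi => schur_cuspP 𝔭 hρ₁ k₁ le_rfl hs' h𝓕 F hFm hFi) hll h0
  -- unfolding
  have hle : ∫⁻ g in 𝓕 ∩ (DD Y)ᶜ, ∑ η ∈ im s, ∑' x : Ss ((ic Γ).map (io K)) (im s),
        kk (mu K) B (g⁻¹ * x * η * g) ∂(mu K) ≤
      ∫⁻ g in 𝓕 ∩ (DD Y)ᶜ, ∑' δ : Γ.map (jo K), cc 𝔭 k δ * kk (mu K) B (g⁻¹ * δ * g) ∂(mu K) := by
    refine lintegral_mono fun g => ?_
    refine le_trans (le_of_eq ?_) (sum_Ss_le hs (fun δ => kk (mu K) B (g⁻¹ * δ * g)))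
    simp only [mul_assoc]
  have hunf := unfoldH (μ := mu K) (io K) (ic Γ) h𝓕 (Γ.map (jo K)) (jo K).range
    (by rintro _ ⟨γ, -, rfl⟩; exact ⟨γ, rfl⟩)
    (by rintro _ ⟨γ, hγ, rfl⟩; exact ⟨oK K γ, hγ, rfl⟩)
    (by rintro _ ⟨γ, rfl⟩; exact ⟨oK K γ, rfl⟩)
    (D := (DD Y)ᶜ) (Ω := Ω)
    (fun g hg => by
      have : Wle Y g := by
        by_contra hcon
        exact hg hcon
      exact hred g this)
    (measurable_kk (μ := mu K) hSB.ms) (c := cc 𝔭 k) (cc_conj 𝔭 k)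
  set W : ℝ := C₃ * X * (n * X) ^ (2 * ε') * (n + X) with hW
  have hW0 : 0 ≤ W := by positivity
  have hΩfin : mu K Ω ≠ ∞ := hΩ.measure_lt_top.ne
  have hint : ∫⁻ g in Ω, ∑' δ : (jo K).range, (Nat.card {y : SL(2, 𝓞 K) ⧸ ic Γ //
      (io K y.out)⁻¹ * δ * io K y.out ∈ Γ.map (jo K)} : ℝ≥0∞) * cc 𝔭 k δ *
      kk (mu K) B (g⁻¹ * δ * g) ∂(mu K) ≤ ENNReal.ofReal (VΩ * W) := by
    calc _ ≤ ∫⁻ g in Ω, ENNReal.ofReal W ∂(mu K) :=
          setLIntegral_mono' hΩ.measurableSet fun g hg => htr Γ hΓ k g (hRb g hg)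
      _ = ENNReal.ofReal W * mu K Ω := setLIntegral_const _ _
      _ = _ := by
          rw [mul_comm, ENNReal.ofReal_mul ENNReal.toReal_nonneg, ENNReal.ofReal_toReal hΩfin]
  have htot : ∑ i, ‖ev k i * a i‖ₑ ^ 2 ≤ ENNReal.ofReal (2 * (VΩ * W)) := by
    calc _ ≤ 2 * ENNReal.ofReal (VΩ * W) :=
          htrace.trans (by gcongr; exact hle.trans (hunf.trans hint))
      _ = _ := by
          rw [ENNReal.ofReal_mul (by norm_num : (0 : ℝ) ≤ 2)]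
          simp
  have htot' : ∑ i, ‖ev k i * a i‖ ^ 2 ≤ 2 * (VΩ * W) := by
    have e : ∑ i, ‖ev k i * a i‖ₑ ^ 2 = ENNReal.ofReal (∑ i, ‖ev k i * a i‖ ^ 2) := by
      rw [ENNReal.ofReal_sum_of_nonneg fun i _ => by positivity]
      exact Finset.sum_congr rfl fun i _ => enorm_sq_eq _
    rw [e] at htot
    exact (ENNReal.ofReal_le_ofReal_iff (by positivity)).1 htot
  -- lower bound of the left hand side
  have hlow : ∀ i, X * (U ^ 2 / 4 * X ^ (2 * (τ i).re)) ≤ ‖ev k i * a i‖ ^ 2 := by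
    intro i
    have h6 := hbd k i
    have e2 : (q ^ k * q ^ (2 * k * (τ i).re) * (U / 2)) ^ 2 = X * (U ^ 2 / 4 * X ^ (2 * (τ i).re)) := by
      have e3 : X ^ (2 * (τ i).re) = (q ^ (2 * k * (τ i).re)) ^ 2 := by
        rw [hX, ← Real.rpow_natCast q (2 * k), ← Real.rpow_mul hq0.le, ← Real.rpow_natCast _ 2,
          ← Real.rpow_mul hq0.le]
        congr 1
        push_cast
        ring
      have e4 : X = (q ^ k) ^ 2 := by rw [hX, ← pow_mul]; ring_nf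
      rw [e3]
      nth_rewrite 1 [e4]
      ring
    rw [← e2]
    gcongr
  have hsum : X * (U ^ 2 / 4 * ∑ i, X ^ (2 * (τ i).re)) ≤ 2 * (VΩ * W) := by
    rw [Finset.mul_sum, Finset.mul_sum]
    exact le_trans (Finset.sum_le_sum fun i _ => hlow i) htot'
  have hWb : W ≤ X * (C₃ * (2 * n ^ (1 + ε))) := by
    rw [hW]
    have e1 : (n * X) ^ (2 * ε') ≤ n ^ ε := by
      calc (n * X) ^ (2 * ε') ≤ (n * n) ^ (2 * ε') := by gcongr
        _ = n ^ ε := by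
          rw [← sq, ← Real.rpow_natCast, ← Real.rpow_mul hn0.le]
          congr 1
          rw [hε']; push_cast; ring
    have e2 : n ^ (1 + ε) = n * n ^ ε := by rw [Real.rpow_add hn0, Real.rpow_one]
    have hnε : 0 ≤ n ^ ε := by positivity
    calc C₃ * X * (n * X) ^ (2 * ε') * (n + X) ≤ C₃ * X * n ^ ε * (n + n) := by gcongr
      _ = _ := by rw [e2]; ring
  have hdiv : U ^ 2 / 4 * ∑ i, X ^ (2 * (τ i).re) ≤ 4 * VΩ * C₃ * n ^ (1 + ε) := by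
    have : X * (U ^ 2 / 4 * ∑ i, X ^ (2 * (τ i).re)) ≤ X * (4 * VΩ * C₃ * n ^ (1 + ε)) := by
      calc X * (U ^ 2 / 4 * ∑ i, X ^ (2 * (τ i).re)) ≤ 2 * (VΩ * W) := hsum
        _ ≤ 2 * (VΩ * (X * (C₃ * (2 * n ^ (1 + ε))))) := by gcongr
        _ = _ := by ring
    exact le_of_mul_le_mul_left this hX0
  have hnp : 0 ≤ n ^ (1 + ε) := by positivity
  have hcmp : ∀ i, n ^ (2 * (τ i).re) ≤ q ^ 2 * X ^ (2 * (τ i).re) := by
    intro i
    have h6 : 0 ≤ 2 * (τ i).re := by have := (hτ i).2.1; linarith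
    have h7 : 2 * (τ i).re ≤ 1 := by have := (hτ i).2.2; linarith
    calc n ^ (2 * (τ i).re) ≤ (q ^ 2 * X) ^ (2 * (τ i).re) := by gcongr
      _ = (q ^ 2) ^ (2 * (τ i).re) * X ^ (2 * (τ i).re) := Real.mul_rpow (by positivity) hX0.le
      _ ≤ (q ^ 2) ^ (1 : ℝ) * X ^ (2 * (τ i).re) := by
          gcongr
          nlinarith
      _ = _ := by rw [Real.rpow_one]
  have hq1 : 1 ≤ q := by linarith
  have hprod : q ^ 2 * (VΩ * C₃) ≤
      (Cv * E₀ ^ (2 * d)) * (C₃' * E₀ ^ A') * q ^ (2 + 4 * d + 2 * A' + 1) := by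
    calc q ^ 2 * (VΩ * C₃) ≤ q ^ 2 * ((Cv * (E₀ * q ^ 2) ^ (2 * d)) * (C₃' * (E₀ * q ^ 2) ^ A' * q)) := by
          rw [hC₃d]
          have h8 : VΩ ≤ Cv * (E₀ * q ^ 2) ^ (2 * d) := hVΩ1.trans (by gcongr)
          gcongr
      _ = _ := by ring
  calc ∑ i, n ^ (2 * (τ i).re) ≤ ∑ i, q ^ 2 * X ^ (2 * (τ i).re) := Finset.sum_le_sum fun i _ => hcmp i
    _ = q ^ 2 * ((U ^ 2 / 4)⁻¹ * (U ^ 2 / 4 * ∑ i, X ^ (2 * (τ i).re))) := by
        rw [← mul_assoc _ (U ^ 2 / 4), inv_mul_cancel₀ (by positivity), one_mul, Finset.mul_sum]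
    _ ≤ q ^ 2 * ((U ^ 2 / 4)⁻¹ * (4 * VΩ * C₃ * n ^ (1 + ε))) := by gcongr
    _ = (U ^ 2 / 4)⁻¹ * 4 * (q ^ 2 * (VΩ * C₃)) * n ^ (1 + ε) := by ring
    _ ≤ (U ^ 2 / 4)⁻¹ * 4 * ((Cv * E₀ ^ (2 * d)) * (C₃' * E₀ ^ A') *
          q ^ (2 + 4 * d + 2 * A' + 1)) * n ^ (1 + ε) := by gcongr
    _ = ((U ^ 2 / 4)⁻¹ * (4 * (Cv * E₀ ^ (2 * d)) * (C₃' * E₀ ^ A'))) *
          q ^ (2 + 4 * d + 2 * A' + 1) * n ^ (1 + ε) := by ring
    _ ≤ _ := by gcongr; linarith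

end Pool.Agent.T2h77V
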