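import Pool.Agent.T2h77.DefsB
import Pool.Agent.T2h77.DefsA

/-!
# Forms which are not tempered at some place
-/

set_option autoImplicit false

open NumberField
open scoped MatrixGroups

noncomputable section

namespace Pool.Agent.T2h77V

open Pool.Agent.T2h77

variable {K : Type} [Field K] [NumberField K]

/-- `Γ` is a family of congruence subgroups `Γ P` of `SL₂(𝓞[1/P])`, for the primes `P` of norm at most `X`, with
`Γ P ∩ SL₂(𝓞) = Γ₀` (there is at most one such group for each `P`, by strong approximation). -/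
def IsExt (X : ℝ) (Γ₀ : Subgroup SL(2, 𝓞 K)) (P : Ideal (𝓞 K)) (Γ : Ideal (𝓞 K) → Subgroup SL(2, K)) : Prop :=
  (P.IsPrime ∧ P ≠ ⊥ ∧ (Ideal.absNorm P : ℝ) ≤ X) ∧ IsCongrP P (Γ P) ∧ ic (Γ P) = Γ₀

/-- The automorphic function `f` for `Γ₀` with the parameters `ν` at the infinite places has the real parameter `s`
at some place: at an infinite place `v`, that is `ν v = s`, or at a prime `P` of norm `q ≤ X`, that is, `f` is an
eigenfunction of the Hecke operators at `P` with the Satake parameters `q ^ s` and `q ^ (- s)`. -/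
def HasRealParameter (X : ℝ) (Γ₀ : Subgroup SL(2, 𝓞 K)) (Γ : Ideal (𝓞 K) → Subgroup SL(2, K))
    (ν : InfinitePlace K → ℂ) (s : ℝ) (f : GG K → ℂ) : Prop :=
  (∃ v : InfinitePlace K, ν v = s) ∨ ∃ P : Ideal (𝓞 K), IsExt X Γ₀ P Γ ∧ IsHeckeEigen P (Γ P) s f

end Pool.Agent.T2h77V
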