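import Pool.Agent.T2h77.Div
import Pool.Agent.T2h77V.Stm

/-!
# Grouping a family by the primes
-/

set_option autoImplicit false

open NumberField Finset
open scoped MatrixGroups

noncomputable section

namespace Pool.Agent.T2h77V

open Pool.Agent.T2h77

/-- the number of the ideals of bounded norm -/
theorem card_ideals (hdiv : S_div) (K : Type) [Field K] [NumberField K] :
    ∃ C : ℝ, 1 ≤ C ∧ ∀ X : ℝ, 1 ≤ X → ∀ T : Finset (Ideal (𝓞 K)),
      (∀ P ∈ T, P ≠ ⊥ ∧ (Ideal.absNorm P : ℝ) ≤ X) → (T.card : ℝ) ≤ C * X ^ 2 := by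
  classical
  set d : ℕ := Module.finrank ℚ K with hd
  have hd0 : 0 < d := Module.finrank_pos
  have hdR : (0 : ℝ) < d := by exact_mod_cast hd0
  obtain ⟨C, hC, h⟩ := hdiv K (1 / d) (by positivity)
  refine ⟨max 1 C, le_max_left _ _, fun X hX T hT => ?_⟩
  have hC1 : C ≤ max 1 C := le_max_right _ _
  -- the norms
  have hmaps : ∀ P ∈ T, Ideal.absNorm P ∈ Finset.Icc 1 ⌊X⌋₊ := by
    intro P hP
    rw [Finset.mem_Icc]
    refine ⟨Nat.one_le_iff_ne_zero.2 fun h0 => (hT P hP).1 (Ideal.absNorm_eq_zero_iff.1 h0),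
      Nat.le_floor (hT P hP).2⟩
  have hfib : ∀ m ∈ Finset.Icc 1 ⌊X⌋₊, ((T.filter fun P => Ideal.absNorm P = m).card : ℝ) ≤
      max 1 C * X := by
    intro m hm
    rw [Finset.mem_Icc] at hm
    have hm0 : (m : 𝓞 K) ≠ 0 := by
      have : m ≠ 0 := by omega
      exact_mod_cast this
    set J : Ideal (𝓞 K) := Ideal.span {(m : 𝓞 K)} with hJ
    have hJ0 : J ≠ ⊥ := by rwa [hJ, Ne, Ideal.span_singleton_eq_bot]
    have hfin : Finite (𝓞 K ⧸ J) := Ideal.finiteQuotientOfFreeOfNeBot _ hJ0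
    have hfin2 : Finite (Ideal (𝓞 K ⧸ J)) :=
      Finite.of_injective (fun I => (I : Set (𝓞 K ⧸ J))) SetLike.coe_injective
    let _ : Fintype (Ideal (𝓞 K ⧸ J)) := Fintype.ofFinite _
    have h1 : (T.filter fun P => Ideal.absNorm P = m).card ≤ Nat.card (Ideal (𝓞 K ⧸ J)) := by
      rw [Nat.card_eq_fintype_card, ← Finset.card_univ]
      refine Finset.card_le_card_of_injOn (fun P => Ideal.map (Ideal.Quotient.mk J) P)
        (fun _ _ => Finset.mem_coe.2 (Finset.mem_univ _)) ?_
      have hle : ∀ P ∈ T.filter fun P => Ideal.absNorm P = m, J ≤ P := by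
        intro P hP
        rw [Finset.mem_filter] at hP
        rw [hJ, Ideal.span_singleton_le_iff_mem, ← hP.2]
        exact Ideal.absNorm_mem P
      intro P hP Q hQ hPQ
      have e : ∀ R : Ideal (𝓞 K), J ≤ R →
          Ideal.comap (Ideal.Quotient.mk J) (Ideal.map (Ideal.Quotient.mk J) R) = R := by
        intro R hR
        rw [Ideal.comap_map_of_surjective' _ Ideal.Quotient.mk_surjective, Ideal.mk_ker, sup_eq_left]
        exact hR
      rw [← e P (hle P hP), ← e Q (hle Q hQ)]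
      exact congrArg _ hPQ
    have h2 := h J hJ0
    have h3 : ((Ideal.absNorm J : ℕ) : ℝ) ^ (1 / (d : ℝ)) = m := by
      have : Ideal.absNorm J = m ^ d := by
        rw [hJ, Ideal.absNorm_span_singleton, hd]
        have : (m : 𝓞 K) = algebraMap ℤ (𝓞 K) (m : ℤ) := by simp
        rw [this, Algebra.norm_algebraMap, Int.natAbs_pow, Int.natAbs_natCast,
          RingOfIntegers.rank]
      rw [this]
      push_cast
      rw [← Real.rpow_natCast, ← Real.rpow_mul (Nat.cast_nonneg _), mul_one_div_cancel hdR.ne',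
        Real.rpow_one]
    rw [h3] at h2
    have h4 : ((T.filter fun P => Ideal.absNorm P = m).card : ℝ) ≤ C * m :=
      le_trans (by exact_mod_cast h1) h2
    have h5 : (m : ℝ) ≤ X := (Nat.le_floor_iff (by linarith)).1 hm.2
    have h6 : (0 : ℝ) ≤ m := Nat.cast_nonneg _
    nlinarith
  have h7 : (T.card : ℝ) = ∑ m ∈ Finset.Icc 1 ⌊X⌋₊,
      ((T.filter fun P => Ideal.absNorm P = m).card : ℝ) := by
    exact_mod_cast Finset.card_eq_sum_card_fiberwise hmaps
  rw [h7]
  refine (Finset.sum_le_sum hfib).trans ?_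
  rw [Finset.sum_const, nsmul_eq_mul, Nat.card_Icc, Nat.add_sub_cancel]
  have h8 : (⌊X⌋₊ : ℝ) ≤ X := Nat.floor_le (by linarith)
  have h9 : 0 < max 1 C := lt_of_lt_of_le one_pos (le_max_left _ _)
  calc (⌊X⌋₊ : ℝ) * (max 1 C * X) ≤ X * (max 1 C * X) := by gcongr
    _ = _ := by ring

/-- a sum over a family is at most the sum over the parts -/
theorem sum_parts {k : ℕ} {α : Type} [DecidableEq α] (c : Fin k → α) (g : Fin k → ℝ) (B : ℝ)
    (h : ∀ (m : ℕ) (e : Fin m → Fin k) (a : α), Function.Injective e → (∀ j, c (e j) = a) →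
      (∃ i, c i = a) → ∑ j, g (e j) ≤ B) :
    ∑ i, g i ≤ ((Finset.univ.image c).card : ℝ) * B := by
  rw [← Finset.sum_fiberwise_of_maps_to (g := c) (t := Finset.univ.image c)
    (fun i _ => Finset.mem_image_of_mem _ (Finset.mem_univ i))]
  have h1 : ∀ a ∈ Finset.univ.image c, ∑ i with c i = a, g i ≤ B := by
    intro a ha
    obtain ⟨i, -, hi⟩ := Finset.mem_image.1 ha
    set s : Finset (Fin k) := Finset.univ.filter fun i => c i = a with hs
    have e : Fin s.card ≃ s := s.equivFin.symm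
    have h2 := h s.card (fun j => (e j : Fin k)) a
      (fun x y hxy => e.injective (Subtype.ext hxy))
      (fun j => (Finset.mem_filter.1 (e j).2).2) ⟨i, hi⟩
    refine le_trans (le_of_eq ?_) h2
    rw [← Finset.sum_coe_sort s g]
    exact (Equiv.sum_comp e (fun x : s => g x)).symm
  refine (Finset.sum_le_sum h1).trans ?_
  rw [Finset.sum_const, nsmul_eq_mul]

end Pool.Agent.T2h77V
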