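import Pool.Agent.T2h77.DefsB
import Pool.Agent.T2h77.FD
import Pool.Agent.T2h77.Geo5
import Pool.Agent.T2h77V.DT
import Pool.Agent.T2h77V.Grp

/-!
# The density theorem for all small primes at once
-/

set_option autoImplicit false

open NumberField MeasureTheory Finset
open scoped MatrixGroups

noncomputable section

namespace Pool.Agent.T2h77V

open Pool.Agent.T2h77 Pool.Agent.T2h74

/-- all weights, all primes of norm at most `X` -/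
theorem allPrimes (hdiv : S_div) (K : Type) [Field K] [NumberField K] (hT : UDensityT K) :
    ∃ A : ℕ, ∀ (ε : ℝ) (L : ℕ), 0 < ε → ∃ C : ℝ, 0 < C ∧
      ∀ (Γ₀ : Subgroup SL(2, 𝓞 K)) (𝓕 : Set (GG K)), IsFD Γ₀ 𝓕 → ∀ X : ℝ, 1 ≤ X →
      ∀ (Γ : Ideal (𝓞 K) → Subgroup SL(2, K)) (k : ℕ) (P : Fin k → Ideal (𝓞 K))
        (N : Fin k → InfinitePlace K → ℕ) (σ : Fin k → InfinitePlace K → ℤˣ)
        (ν : Fin k → InfinitePlace K → ℂ) (τ : Fin k → ℝ) (f : Fin k → GG K → ℂ),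
        (∀ i, (P i).IsPrime ∧ P i ≠ ⊥ ∧ (Ideal.absNorm (P i) : ℝ) ≤ X ∧
          IsCongrP (P i) (Γ (P i)) ∧ ic (Γ (P i)) = Γ₀) →
        (∀ i, Continuous (f i) ∧ (∀ γ ∈ Γ₀, ∀ g, f i (lm γ g) = f i g) ∧
          HasType (N i) (σ i) (ν i) (f i) ∧ IsL2 𝓕 (f i) ∧ IsHeckeEigen (P i) (Γ (P i)) (τ i) (f i)) →
        (∀ i w, N i w ≤ L ∧ ‖ν i w‖ ≤ L) → (∀ i, ε ≤ τ i ∧ τ i ≤ 1 / 2) → LinearIndependent ℂ f →
        ∑ i, (Γ₀.index : ℝ) ^ (2 * τ i) ≤ C * X ^ A * (Γ₀.index : ℝ) ^ (1 + ε) := by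
  classical
  obtain ⟨A, hA⟩ := hT
  obtain ⟨C₁, hC₁, hcard⟩ := card_ideals hdiv K
  refine ⟨A + 2, fun ε L hε => ?_⟩
  obtain ⟨C, hC, h⟩ := hA ε L hε
  refine ⟨C₁ * C, by positivity, ?_⟩
  intro Γ₀ 𝓕 h𝓕 X hX Γ k P N σ ν τ f hP hf hNν hτ hli
  have hX0 : (0 : ℝ) < X := by linarith
  have key := sum_parts P (fun i => (Γ₀.index : ℝ) ^ (2 * τ i))
    (C * X ^ A * (Γ₀.index : ℝ) ^ (1 + ε)) (by
      intro m e 𝔭 he hc hex
      obtain ⟨i₀, hi₀⟩ := hex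
      obtain ⟨h1, h2, h3, h4, h5⟩ := hP i₀
      rw [hi₀] at h1 h2 h3 h4 h5
      have hfd := h𝓕.isFundamentalDomain
      rw [← h5] at hfd
      have h6 := h 𝔭 h1 h2 (Γ 𝔭) h4 𝓕 hfd m (fun j => N (e j)) (fun j => σ (e j))
        (fun j => ν (e j)) (fun j => (τ (e j) : ℂ)) (fun j => f (e j)) (fun j => (hf (e j)).1)
        (fun j γ hγ g => by rw [h5] at hγ; exact (hf (e j)).2.1 γ hγ g)
        (fun j => (hf (e j)).2.2.1) (fun j => (hf (e j)).2.2.2.1)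
        (fun j => by
          have := (hf (e j)).2.2.2.2.isHecke
          rwa [hc j] at this)
        (fun j => ⟨Complex.ofReal_im _, (hτ (e j)).1, (hτ (e j)).2⟩)
        (fun j w => (hNν (e j) w).1) (fun j w => (hNν (e j) w).2) (hli.comp e he)
      simp only [Complex.ofReal_re] at h6
      rw [h5] at h6
      refine h6.trans ?_
      have h7 : (0 : ℝ) ≤ (Γ₀.index : ℝ) ^ (1 + ε) := by positivity
      gcongr)
  refine key.trans ?_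
  have hT := hcard X hX (Finset.univ.image P) (by
    intro Q hQ
    obtain ⟨i, -, rfl⟩ := Finset.mem_image.1 hQ
    exact ⟨(hP i).2.1, (hP i).2.2.1⟩)
  have h7 : (0 : ℝ) ≤ C * X ^ A * (Γ₀.index : ℝ) ^ (1 + ε) := by positivity
  calc ((Finset.univ.image P).card : ℝ) * (C * X ^ A * (Γ₀.index : ℝ) ^ (1 + ε))
      ≤ (C₁ * X ^ 2) * (C * X ^ A * (Γ₀.index : ℝ) ^ (1 + ε)) := by gcongr
    _ = _ := by ring


end Pool.Agent.T2h77V
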