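import Pool.Agent.T2h77V.Defs
import Pool.Agent.T2h77.FD
import Pool.Agent.T2h77.Geo5
import Pool.Agent.T2h77V.DP
import Pool.Agent.T2h77V.Grp

/-!
# The density theorem for all infinite places and all small primes at once
-/

set_option autoImplicit false

open NumberField MeasureTheory Finset
open scoped MatrixGroups

noncomputable section

namespace Pool.Agent.T2h77V

open Pool.Agent.T2h77

/-- spherical forms, all infinite places and all primes of norm at most `X` -/
theorem allPlaces (hdiv : S_div) (K : Type) [Field K] [NumberField K] (hD : Density K) (hP : UDensityP K) :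
    ∃ A : ℕ, ∀ (ε L : ℝ), 0 < ε → ∃ C : ℝ, 0 < C ∧
      ∀ (Γ₀ : Subgroup SL(2, 𝓞 K)), IsCongr Γ₀ → ∀ (𝓕 : Set (GG K)), IsFD Γ₀ 𝓕 → ∀ X : ℝ, 1 ≤ X →
      ∀ (Γ : Ideal (𝓞 K) → Subgroup SL(2, K)) (k : ℕ) (ν : Fin k → InfinitePlace K → ℂ) (s : Fin k → ℝ)
        (f : Fin k → GG K → ℂ),
        (∀ i, IsAutomorphic Γ₀ (ν i) (f i) ∧ IsL2 𝓕 (f i) ∧ HasRealParameter X Γ₀ Γ (ν i) (s i) (f i)) →
        (∀ i w, ‖ν i w‖ ≤ L) → (∀ i, ε ≤ s i ∧ s i ≤ 1 / 2) → LinearIndependent ℂ f →
        ∑ i, (Γ₀.index : ℝ) ^ (2 * s i) ≤ C * X ^ A * (Γ₀.index : ℝ) ^ (1 + ε) := by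
  classical
  obtain ⟨A, hA⟩ := hP
  obtain ⟨C₁, hC₁, hcard⟩ := card_ideals hdiv K
  refine ⟨A + 2, fun ε L hε => ?_⟩
  obtain ⟨C, hC, h⟩ := hA ε L hε
  have hv : ∀ v : InfinitePlace K, _ := fun v => hD v ε L hε
  choose Cv hCv hinf using hv
  set M : ℝ := C + ∑ v, Cv v with hM
  have hsum : 0 ≤ ∑ v, Cv v := Finset.sum_nonneg fun v _ => (hCv v).le
  have hM0 : 0 < M := by positivity
  set I : ℝ := (Fintype.card (InfinitePlace K) : ℝ) with hI
  have hI0 : 0 ≤ I := Nat.cast_nonneg _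
  refine ⟨(I + C₁) * M, by positivity, ?_⟩
  intro Γ₀ hΓ₀ 𝓕 h𝓕 X hX Γ k ν s f hf hν hs hli
  have hX0 : (0 : ℝ) < X := by linarith
  have hfi := index_ne_zero_of_congr hΓ₀
  set n : ℝ := (Γ₀.index : ℝ) with hn
  -- the places
  have hpl : ∀ i, ∃ c : InfinitePlace K ⊕ Ideal (𝓞 K), (∀ v, c = Sum.inl v → ν i v = s i) ∧
      ∀ P, c = Sum.inr P → IsExt X Γ₀ P Γ ∧ IsHeckeEigen P (Γ P) (s i) (f i) := by
    intro i
    rcases (hf i).2.2 with ⟨v, hv⟩ | ⟨P, hP⟩
    · refine ⟨Sum.inl v, ?_, ?_⟩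
      · intro w hw
        rw [← Sum.inl.inj hw]
        exact hv
      · intro P hP
        cases hP
    · refine ⟨Sum.inr P, ?_, ?_⟩
      · intro w hw
        cases hw
      · intro Q hQ
        rw [← Sum.inr.inj hQ]
        exact hP
  choose c hc1 hc2 using hpl
  have hn0 : (0 : ℝ) ≤ n ^ (1 + ε) := by positivity
  have hXA : (1 : ℝ) ≤ X ^ A := one_le_pow₀ hX
  have key := sum_parts c (fun i => n ^ (2 * s i)) (M * X ^ A * n ^ (1 + ε)) (by
      intro m e a he hc hex
      obtain ⟨i₀, hi₀⟩ := hex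
      rcases a with v | 𝔭
      · -- infinite place
        have h6 := hinf v Γ₀ hΓ₀ 𝓕 h𝓕.isFundamentalDomain m (fun j => ν (e j)) (fun j => f (e j))
          (fun j => (hf (e j)).1) (fun j => (hf (e j)).2.1)
          (fun j => by
            have h7 := hc1 (e j) v (hc j)
            simp only [h7]
            exact ⟨Complex.ofReal_im _, by rw [Complex.ofReal_re]; exact (hs (e j)).1,
              by rw [Complex.ofReal_re]; exact (hs (e j)).2⟩)
          (fun j w _ => hν (e j) w) (hli.comp e he)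
        have h8 : ∑ j, n ^ (2 * s (e j)) = ∑ j, n ^ (2 * (ν (e j) v).re) := by
          refine Finset.sum_congr rfl fun j _ => ?_
          rw [hc1 (e j) v (hc j), Complex.ofReal_re]
        rw [h8]
        refine h6.trans ?_
        have h9 : Cv v ≤ M := by
          have := Finset.single_le_sum (f := Cv) (fun v _ => (hCv v).le) (Finset.mem_univ v)
          rw [hM]; linarith
        calc Cv v * n ^ (1 + ε) ≤ M * 1 * n ^ (1 + ε) := by rw [mul_one]; gcongr
          _ ≤ M * X ^ A * n ^ (1 + ε) := by gcongr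
      · obtain ⟨⟨⟨h1, h2, h3⟩, h4, h5⟩, -⟩ := hc2 i₀ 𝔭 hi₀
        have hfd := h𝓕.isFundamentalDomain
        rw [← h5] at hfd
        have h6 := h 𝔭 h1 h2 (Γ 𝔭) h4 𝓕 hfd m (fun j => ν (e j)) (fun j => (s (e j) : ℂ))
          (fun j => f (e j)) (fun j => by rw [h5]; exact (hf (e j)).1) (fun j => (hf (e j)).2.1)
          (fun j => (hc2 (e j) 𝔭 (hc j)).2.isHecke)
          (fun j => ⟨Complex.ofReal_im _, (hs (e j)).1, (hs (e j)).2⟩)
          (fun j w => hν (e j) w) (hli.comp e he)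
        simp only [Complex.ofReal_re] at h6
        rw [h5] at h6
        refine h6.trans ?_
        have h9 : C ≤ M := by rw [hM]; linarith
        gcongr)
  refine key.trans ?_
  -- the number of the places
  have hT : ((Finset.univ.image c).card : ℝ) ≤ I + C₁ * X ^ 2 := by
    set T : Finset (Ideal (𝓞 K)) := (Finset.univ.image c).biUnion fun a =>
      Sum.elim (fun _ => ∅) (fun P => {P}) a with hTd
    have h1 : Finset.univ.image c ⊆
        (Finset.univ : Finset (InfinitePlace K)).image Sum.inl ∪ T.image Sum.inr := by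
      intro a ha
      rw [Finset.mem_union]
      rcases a with v | P
      · exact Or.inl (Finset.mem_image_of_mem _ (Finset.mem_univ v))
      · refine Or.inr (Finset.mem_image_of_mem _ ?_)
        rw [hTd, Finset.mem_biUnion]
        exact ⟨Sum.inr P, ha, by simp⟩
    have h2 := hcard X hX T (by
      intro Q hQ
      rw [hTd, Finset.mem_biUnion] at hQ
      obtain ⟨a, ha, hQa⟩ := hQ
      obtain ⟨i, -, rfl⟩ := Finset.mem_image.1 ha
      cases hci : c i with
      | inl v => rw [hci] at hQa; simp at hQa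
      | inr P =>
        rw [hci] at hQa
        simp only [Sum.elim_inr, Finset.mem_singleton] at hQa
        subst hQa
        exact ⟨(hc2 i Q hci).1.1.2.1, (hc2 i Q hci).1.1.2.2⟩)
    have h3 := Finset.card_le_card h1
    have h4 := Finset.card_union_le ((Finset.univ : Finset (InfinitePlace K)).image
      (Sum.inl : InfinitePlace K → InfinitePlace K ⊕ Ideal (𝓞 K))) (T.image Sum.inr)
    have h5 := Finset.card_image_le (s := (Finset.univ : Finset (InfinitePlace K)))
      (f := (Sum.inl : InfinitePlace K → InfinitePlace K ⊕ Ideal (𝓞 K)))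
    have h6 := Finset.card_image_le (s := T)
      (f := (Sum.inr : Ideal (𝓞 K) → InfinitePlace K ⊕ Ideal (𝓞 K)))
    rw [Finset.card_univ] at h5
    have h7 : (Finset.univ.image c).card ≤ Fintype.card (InfinitePlace K) + T.card := by omega
    have h8 : ((Finset.univ.image c).card : ℝ) ≤ I + T.card := by
      rw [hI]; exact_mod_cast h7
    linarith
  have h7 : (0 : ℝ) ≤ M * X ^ A * n ^ (1 + ε) := by positivity
  have hX2 : (1 : ℝ) ≤ X ^ 2 := one_le_pow₀ hX
  calc ((Finset.univ.image c).card : ℝ) * (M * X ^ A * n ^ (1 + ε))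
      ≤ (I + C₁ * X ^ 2) * (M * X ^ A * n ^ (1 + ε)) := by gcongr
    _ ≤ ((I + C₁) * X ^ 2) * (M * X ^ A * n ^ (1 + ε)) := by
        gcongr
        nlinarith
    _ = _ := by ring

end Pool.Agent.T2h77V
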